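import Pool.Agent.H94.LT.Cl

/-!
Local analysis of the `2`-coverings `a u² - b r² = D w²`, `a u² - a b z² = t D w²` of
`y² = x (x - D) (x - t D)`.
-/

namespace Pool.Agent.H94.LT

open WithZero

section

variable {M : Type*} [Field M] {v : Valuation M ℤᵐ⁰}

/-- the covering has a point -/
def Sol (t D a b : M) : Prop :=
  ∃ u r z w : M, ¬ (u = 0 ∧ r = 0 ∧ z = 0 ∧ w = 0) ∧ a * u ^ 2 - b * r ^ 2 = D * w ^ 2 ∧
    a * u ^ 2 - a * b * z ^ 2 = t * D * w ^ 2

/-- the covering has a point with `w = 1` -/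
def Pt (t D a b : M) : Prop :=
  ∃ u r z : M, a * u ^ 2 - b * r ^ 2 = D ∧ a * u ^ 2 - a * b * z ^ 2 = t * D

theorem sol_cases {t D a b : M} (ha : a ≠ 0) (hb : b ≠ 0) (h : Sol t D a b) :
    ((∃ s, s ≠ 0 ∧ a = s ^ 2) ∧ (∃ s, s ≠ 0 ∧ b = s ^ 2)) ∨ Pt t D a b := by
  obtain ⟨u, r, z, w, h0, h1, h2⟩ := h
  by_cases hw : w = 0
  · left
    subst hw
    have h3 : a * u ^ 2 = b * r ^ 2 := by linear_combination h1
    have h4 : a * u ^ 2 = a * b * z ^ 2 := by linear_combination h2
    have hu : u ≠ 0 := by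
      rintro rfl
      have h5 : b * r ^ 2 = 0 := by rw [← h3]; ring
      have h6 : a * b * z ^ 2 = 0 := by rw [← h4]; ring
      apply h0
      refine ⟨rfl, ?_, ?_, rfl⟩
      · simpa [hb] using h5
      · simpa [ha, hb] using h6
    have hau : a * u ^ 2 ≠ 0 := mul_ne_zero ha (pow_ne_zero 2 hu)
    have hr : r ≠ 0 := by
      rintro rfl
      apply hau; rw [h3]; ring
    have hz : z ≠ 0 := by
      rintro rfl
      apply hau; rw [h4]; ring
    have h5 : u ^ 2 = b * z ^ 2 := by
      apply mul_left_cancel₀ ha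
      rw [h4]; ring
    have h6 : r ^ 2 = a * z ^ 2 := by
      apply mul_left_cancel₀ hb
      rw [← h3, h4]; ring
    refine ⟨⟨r / z, div_ne_zero hr hz, ?_⟩, ⟨u / z, div_ne_zero hu hz, ?_⟩⟩
    · rw [div_pow, h6]; field_simp
    · rw [div_pow, h5]; field_simp
  · right
    refine ⟨u / w, r / w, z / w, ?_, ?_⟩
    · rw [div_pow, div_pow]; field_simp; linear_combination h1
    · rw [div_pow, div_pow]; field_simp; linear_combination h2

/-- cancel squares: from `Cl (a u² · c)` to `Cl (a c)` -/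
theorem Cl.cancel {a c s : M} (h : Cl v (a * s ^ 2 * c)) : Cl v (a * c) := by
  have hs : s ≠ 0 := by
    rintro rfl
    apply h.ne_zero; ring
  have h1 : a * s ^ 2 * c = a * c * s ^ 2 := by ring
  rw [h1] at h
  exact Cl.of_mul_sq hs h

theorem Ev.cancel {a c s : M} (h : Ev v (a * s ^ 2 * c)) : Ev v (a * c) := by
  have hs : s ≠ 0 := by
    rintro rfl
    apply h.ne_zero; ring
  have h1 : a * s ^ 2 * c = a * c * s ^ 2 := by ring
  rw [h1] at h
  exact Ev.of_mul_sq hs h

theorem evexp {c s : M} {n : ℤ} (hn : Even n) (h : v (c * s ^ 2) = exp n) : Ev v c := by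
  have h1 : Ev v (c * s ^ 2) := Ev.of_exp h hn
  have hs : s ≠ 0 := by
    rintro rfl
    apply h1.ne_zero; ring
  exact Ev.of_mul_sq hs h1

theorem evof {c s : M} (h : v (c * s ^ 2) = 1) : Ev v c :=
  evexp (n := 0) (by norm_num) (by rw [h, exp_zero])

theorem Ev.cancel_exp {c s p : M} {n m : ℤ} (h : v (c * s ^ 2) = exp n) (hp : v p = exp m)
    (hnm : Even (n + m)) : Ev v (c * p) := by
  have h1 : Ev v (c * s ^ 2 * p) := Ev.of_exp (n := n + m) (by rw [map_mul, h, hp, exp_add]) hnm
  exact h1.cancel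

theorem lt_one_iff_le {x : ℤᵐ⁰} : x < 1 ↔ x ≤ exp (-1 : ℤ) := by
  constructor
  · intro h
    by_cases hx : x = 0
    · rw [hx]; exact zero_le
    · rw [← exp_log hx, ← exp_zero, exp_lt_exp] at h
      rw [← exp_log hx, exp_le_exp]; omega
  · intro h
    refine lt_of_le_of_lt h ?_
    rw [← exp_zero, exp_lt_exp]; norm_num

/-- all three values are large: trivial class -/
theorem large {t D a b u r z : M} (h1 : a * u ^ 2 - b * r ^ 2 = D)
    (h2 : a * u ^ 2 - a * b * z ^ 2 = t * D) (hD : v D < v (a * u ^ 2))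
    (htD : v (t * D) < v (a * u ^ 2)) : Cl v a ∧ Cl v b := by
  have hX : a * u ^ 2 ≠ 0 := by
    intro h0; rw [h0] at hD; simp at hD
  have h3 : Cl v (b * r ^ 2 * (a * u ^ 2)) := by
    apply close hX
    have : b * r ^ 2 - a * u ^ 2 = -D := by linear_combination -h1
    rw [this, Valuation.map_neg]; exact hD
  have h4 : Cl v (a * b * z ^ 2 * (a * u ^ 2)) := by
    apply close hX
    have : a * b * z ^ 2 - a * u ^ 2 = -(t * D) := by linear_combination -h2
    rw [this, Valuation.map_neg]; exact htD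
  have h5 : Cl v (a * b * (a * u ^ 2)) := h4.cancel
  have h6 : Cl v (a * (a * b)) := by
    have : a * b * (a * u ^ 2) = a * u ^ 2 * (a * b) := by ring
    rw [this] at h5
    exact h5.cancel
  have h7 : Cl v b := by
    have hane : a ≠ 0 := left_ne_zero_of_mul hX
    have : a * (a * b) = b * a ^ 2 := by ring
    rw [this] at h6
    exact Cl.of_mul_sq hane h6
  have h8 : Cl v (b * (a * u ^ 2)) := h3.cancel
  have h9 : Cl v (a * b) := by
    have : b * (a * u ^ 2) = a * u ^ 2 * b := by ring
    rw [this] at h8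
    exact h8.cancel
  refine ⟨?_, h7⟩
  rw [mul_comm] at h9
  exact h7.of_mul h9

/-- the places of good reduction -/
theorem pt_good {t D a b : M} (hD : v D = 1) (ht : v t = 1) (ht1 : v (t - 1) = 1)
    (h : Pt t D a b) : Ev v a ∧ Ev v b := by
  obtain ⟨u, r, z, h1, h2⟩ := h
  have htD : v (t * D) = 1 := by rw [map_mul, ht, hD, one_mul]
  rcases lt_or_ge 1 (v (a * u ^ 2)) with hX | hX
  · obtain ⟨h3, h4⟩ := large h1 h2 (by rw [hD]; exact hX) (by rw [htD]; exact hX)
    exact ⟨h3.ev, h4.ev⟩
  have hXZ : a * b * z ^ 2 = a * u ^ 2 - t * D := by linear_combination -h2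
  have hXY : b * r ^ 2 = a * u ^ 2 - D := by linear_combination -h1
  rcases lt_or_eq_of_le hX with hX1 | hX1
  · -- `X` small
    have h3 : v (b * r ^ 2) = 1 := by
      rw [hXY, v.map_sub_eq_of_lt_right (by rw [hD]; exact hX1), hD]
    have h4 : v (a * b * z ^ 2) = 1 := by
      rw [hXZ, v.map_sub_eq_of_lt_right (by rw [htD]; exact hX1), htD]
    have hb := evof h3
    have hab := evof h4
    refine ⟨?_, hb⟩
    rw [mul_comm] at hab
    exact hb.of_mul hab
  · have ha := evof hX1
    refine ⟨ha, ?_⟩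
    have h5 : a * b * z ^ 2 = b * r ^ 2 - (t - 1) * D := by rw [hXZ, hXY]; ring
    have hY : v (b * r ^ 2) ≤ 1 := by
      rw [hXY]
      exact (v.map_sub _ _).trans (max_le hX hD.le)
    rcases lt_or_eq_of_le hY with hY1 | hY1
    · have h4 : v (a * b * z ^ 2) = 1 := by
        have h6 : v ((t - 1) * D) = 1 := by rw [map_mul, ht1, hD, one_mul]
        rw [h5, v.map_sub_eq_of_lt_right (by rw [h6]; exact hY1), h6]
      exact ha.of_mul (evof h4)
    · exact evof hY1

/-- the place `t = 0` -/
theorem pt_zero {t D a b : M} (hD : v D = 1) (ht : v t = exp (-1 : ℤ))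
    (h : Pt t D a b) : (Ev v a ∧ Cl v b) ∨ (Ev v (a * t) ∧ Cl v (-(b * D))) := by
  obtain ⟨u, r, z, h1, h2⟩ := h
  have htD : v (t * D) = exp (-1 : ℤ) := by rw [map_mul, ht, hD, mul_one]
  have hlt : exp (-1 : ℤ) < (1 : ℤᵐ⁰) := lt_one_iff_le.2 le_rfl
  have hD0 : D ≠ 0 := by rintro rfl; simp at hD
  have hXZ : a * b * z ^ 2 = a * u ^ 2 - t * D := by linear_combination -h2
  have hXY : b * r ^ 2 = a * u ^ 2 - D := by linear_combination -h1
  rcases lt_trichotomy 1 (v (a * u ^ 2)) with hX | hX | hX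
  · obtain ⟨h3, h4⟩ := large h1 h2 (by rw [hD]; exact hX) (by rw [htD]; exact hlt.trans hX)
    exact Or.inl ⟨h3.ev, h4⟩
  · left
    refine ⟨evof hX.symm, ?_⟩
    have hX0 : a * u ^ 2 ≠ 0 := by
      intro h0; rw [h0] at hX; simp at hX
    have h4 : Cl v (a * b * z ^ 2 * (a * u ^ 2)) := by
      apply close hX0
      have : a * b * z ^ 2 - a * u ^ 2 = -(t * D) := by rw [hXZ]; ring
      rw [this, Valuation.map_neg, htD, ← hX]; exact hlt
    have h5 : Cl v (a * b * (a * u ^ 2)) := h4.cancel
    have h6 : Cl v (a * (a * b)) := by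
      have : a * b * (a * u ^ 2) = a * u ^ 2 * (a * b) := by ring
      rw [this] at h5
      exact h5.cancel
    have hane : a ≠ 0 := left_ne_zero_of_mul hX0
    have : a * (a * b) = b * a ^ 2 := by ring
    rw [this] at h6
    exact Cl.of_mul_sq hane h6
  · right
    have h3 : Cl v (b * r ^ 2 * (-D)) := by
      apply close (neg_ne_zero.2 hD0)
      have : b * r ^ 2 - -D = a * u ^ 2 := by rw [hXY]; ring
      rw [this, Valuation.map_neg, hD]; exact hX
    have h4 : Cl v (-(b * D)) := by
      have := h3.cancel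
      rwa [mul_neg] at this
    refine ⟨?_, h4⟩
    have hb : Ev v b := by
      have h5 : Ev v (D * (b * (-1))) := by
        have : D * (b * (-1)) = -(b * D) := by ring
        rw [this]; exact h4.ev
      have h6 := (Ev.of_val hD).of_mul h5
      have h7 : Ev v ((-1) * b) := by rwa [mul_comm] at h6
      exact (Ev.of_val (by rw [Valuation.map_neg, map_one])).of_mul h7
    have ht2 : v (t * t) = exp (-2 : ℤ) := by
      rw [map_mul, ht, ← exp_add]; norm_num
    have ht0 : t ≠ 0 := by
      rintro rfl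
      rw [map_zero] at ht
      exact exp_ne_zero ht.symm
    rcases lt_or_eq_of_le (lt_one_iff_le.1 hX) with hX1 | hX1
    · -- `v Z = exp (-1)`
      have h5 : v (a * b * z ^ 2) = exp (-1 : ℤ) := by
        rw [hXZ, v.map_sub_eq_of_lt_right (by rw [htD]; exact hX1), htD]
      have h7 : Ev v (a * b * t) := Ev.cancel_exp h5 ht (by norm_num)
      have h8 : Ev v (b * (a * t)) := by
        have : b * (a * t) = a * b * t := by ring
        rw [this]; exact h7
      exact hb.of_mul h8
    · exact Ev.cancel_exp hX1 ht (by norm_num)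

/-- the place `t = 1` -/
theorem pt_one {t D a b : M} (hD : v D = 1) (ht1 : v (t - 1) = exp (-1 : ℤ))
    (h : Pt t D a b) : (Cl v a ∧ Ev v b) ∨ (Cl v (a * D) ∧ Ev v (b * (t - 1))) := by
  obtain ⟨u, r, z, h1, h2⟩ := h
  have hlt : exp (-1 : ℤ) < (1 : ℤᵐ⁰) := lt_one_iff_le.2 le_rfl
  have htD : v ((t - 1) * D) = exp (-1 : ℤ) := by rw [map_mul, ht1, hD, mul_one]
  have ht : v t = 1 := by
    apply val_eq_one_of_sub
    rw [ht1]; exact hlt
  have hD0 : D ≠ 0 := by rintro rfl; simp at hD
  have hXY : b * r ^ 2 = a * u ^ 2 - D := by linear_combination -h1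
  have hYZ : a * b * z ^ 2 = b * r ^ 2 - (t - 1) * D := by
    linear_combination -h2 + h1
  rcases lt_trichotomy 1 (v (b * r ^ 2)) with hY | hY | hY
  · have hX : v (a * u ^ 2) = v (b * r ^ 2) := by
      have : a * u ^ 2 = b * r ^ 2 + D := by rw [hXY]; ring
      rw [this, v.map_add_eq_of_lt_left (by rw [hD]; exact hY)]
    obtain ⟨h3, h4⟩ := large h1 h2 (by rw [hD, hX]; exact hY)
      (by rw [map_mul, ht, hD, one_mul, hX]; exact hY)
    exact Or.inl ⟨h3, h4.ev⟩
  · left
    refine ⟨?_, evof hY.symm⟩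
    have hY0 : b * r ^ 2 ≠ 0 := by
      intro h0; rw [h0] at hY; simp at hY
    have h4 : Cl v (a * b * z ^ 2 * (b * r ^ 2)) := by
      apply close hY0
      have : a * b * z ^ 2 - b * r ^ 2 = -((t - 1) * D) := by rw [hYZ]; ring
      rw [this, Valuation.map_neg, htD, ← hY]; exact hlt
    have h5 : Cl v (a * b * (b * r ^ 2)) := h4.cancel
    have h6 : Cl v (b * (a * b)) := by
      have : a * b * (b * r ^ 2) = b * r ^ 2 * (a * b) := by ring
      rw [this] at h5
      exact h5.cancel
    have hbne : b ≠ 0 := left_ne_zero_of_mul hY0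
    have : b * (a * b) = a * b ^ 2 := by ring
    rw [this] at h6
    exact Cl.of_mul_sq hbne h6
  · right
    have h3 : Cl v (a * u ^ 2 * D) := by
      apply close hD0
      have : a * u ^ 2 - D = b * r ^ 2 := by rw [hXY]
      rw [this, hD]; exact hY
    have h4 : Cl v (a * D) := h3.cancel
    refine ⟨h4, ?_⟩
    have ha : Ev v a := by
      have h5 : Ev v (D * a) := by rw [mul_comm]; exact h4.ev
      exact (Ev.of_val hD).of_mul h5
    have ht0 : t - 1 ≠ 0 := by
      intro h0
      rw [h0, map_zero] at ht1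
      exact exp_ne_zero ht1.symm
    rcases lt_or_eq_of_le (lt_one_iff_le.1 hY) with hY1 | hY1
    · have h5 : v (a * b * z ^ 2) = exp (-1 : ℤ) := by
        rw [hYZ, v.map_sub_eq_of_lt_right (by rw [htD]; exact hY1), htD]
      have h7 : Ev v (a * b * (t - 1)) := Ev.cancel_exp h5 ht1 (by norm_num)
      have h8 : Ev v (a * (b * (t - 1))) := by rw [← mul_assoc]; exact h7
      exact ha.of_mul h8
    · exact Ev.cancel_exp hY1 ht1 (by norm_num)

/-- a place dividing `D` (exactly once) -/
theorem pt_bad {t D a b : M} (hD : v D = exp (-1 : ℤ)) (ht : v t = 1) (ht1 : v (t - 1) = 1)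
    (h : Pt t D a b) : (Cl v a ∧ Cl v b) ∨ (Cl v (a * t) ∧ Cl v (-(b * D))) ∨
      (Cl v (a * D) ∧ Cl v (-(b * (t - 1)))) ∨ (Cl v (a * (t * D)) ∧ Cl v (b * ((t - 1) * D))) := by
  obtain ⟨u, r, z, h1, h2⟩ := h
  have hlt : exp (-1 : ℤ) < (1 : ℤᵐ⁰) := lt_one_iff_le.2 le_rfl
  have htD : v (t * D) = exp (-1 : ℤ) := by rw [map_mul, ht, hD, one_mul]
  have htD1 : v ((t - 1) * D) = exp (-1 : ℤ) := by rw [map_mul, ht1, hD, one_mul]
  have hD0 : D ≠ 0 := by
    rintro rfl
    rw [map_zero] at hD
    exact exp_ne_zero hD.symm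
  have ht0 : t ≠ 0 := by rintro rfl; simp at ht
  have ht10 : t - 1 ≠ 0 := by intro h0; rw [h0] at ht1; simp at ht1
  have hXZ : a * b * z ^ 2 = a * u ^ 2 - t * D := by linear_combination -h2
  have hXY : b * r ^ 2 = a * u ^ 2 - D := by linear_combination -h1
  have hYZ : a * b * z ^ 2 = b * r ^ 2 - (t - 1) * D := by linear_combination -h2 + h1
  rcases lt_or_ge (v (a * u ^ 2)) 1 with hX | hX
  swap
  · left
    exact large h1 h2 (by rw [hD]; exact hlt.trans_le hX) (by rw [htD]; exact hlt.trans_le hX)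
  right
  have hX' := lt_one_iff_le.1 hX
  rcases lt_or_eq_of_le hX' with hX1 | hX1
  · left
    have h3 : Cl v (b * r ^ 2 * (-D)) := by
      apply close (neg_ne_zero.2 hD0)
      have : b * r ^ 2 - -D = a * u ^ 2 := by rw [hXY]; ring
      rw [this, Valuation.map_neg, hD]; exact hX1
    have h4 : Cl v (a * b * z ^ 2 * (-(t * D))) := by
      apply close (neg_ne_zero.2 (mul_ne_zero ht0 hD0))
      have : a * b * z ^ 2 - -(t * D) = a * u ^ 2 := by rw [hXZ]; ring
      rw [this, Valuation.map_neg, htD]; exact hX1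
    have h5 : Cl v (b * (-D)) := h3.cancel
    have h6 : Cl v (a * b * (-(t * D))) := h4.cancel
    refine ⟨?_, by rwa [mul_neg] at h5⟩
    apply h5.of_mul
    have hbD : b * D ≠ 0 := by
      have := h5.ne_zero
      rw [mul_neg] at this
      exact neg_ne_zero.1 this
    have h7 : b * -D * (a * t) = a * b * (-(t * D)) := by ring
    rw [h7]; exact h6
  · right
    have hY : v (b * r ^ 2) ≤ exp (-1 : ℤ) := by
      rw [hXY]; exact (v.map_sub _ _).trans (max_le hX1.le hD.le)
    rcases lt_or_eq_of_le hY with hY1 | hY1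
    · left
      have h3 : Cl v (a * u ^ 2 * D) := by
        apply close hD0
        have : a * u ^ 2 - D = b * r ^ 2 := by rw [hXY]
        rw [this, hD]; exact hY1
      have h4 : Cl v (a * b * z ^ 2 * (-((t - 1) * D))) := by
        apply close (neg_ne_zero.2 (mul_ne_zero ht10 hD0))
        have : a * b * z ^ 2 - -((t - 1) * D) = b * r ^ 2 := by rw [hYZ]; ring
        rw [this, Valuation.map_neg, htD1]; exact hY1
      have h5 : Cl v (a * D) := h3.cancel
      have h6 : Cl v (a * b * (-((t - 1) * D))) := h4.cancel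
      refine ⟨h5, ?_⟩
      apply h5.of_mul
      have h7 : a * D * (-(b * (t - 1))) = a * b * (-((t - 1) * D)) := by ring
      rw [h7]; exact h6
    · right
      have hZ : v (a * b * z ^ 2) ≤ exp (-1 : ℤ) := by
        rw [hXZ]; exact (v.map_sub _ _).trans (max_le hX1.le htD.le)
      have hZ1 : v (a * b * z ^ 2) < exp (-1 : ℤ) := by
        refine lt_of_le_of_ne hZ fun hZ2 => ?_
        -- parity contradiction
        have h3 : v ((a * b * u * r * z) ^ 2) = exp (-3 : ℤ) := by
          have : (a * b * u * r * z) ^ 2 = (a * u ^ 2) * (b * r ^ 2) * (a * b * z ^ 2) := by ring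
          rw [this, map_mul, map_mul, hX1, hY1, hZ2, ← exp_add, ← exp_add]
          norm_num
        have h4 : a * b * u * r * z ≠ 0 := by
          intro h0
          rw [h0, zero_pow two_ne_zero, map_zero] at h3
          exact exp_ne_zero h3.symm
        have h5 := (Ev.sq (v := v) h4).even h3
        revert h5; decide
      have h3 : Cl v (a * u ^ 2 * (t * D)) := by
        apply close (mul_ne_zero ht0 hD0)
        have : a * u ^ 2 - t * D = a * b * z ^ 2 := by rw [hXZ]
        rw [this, htD]; exact hZ1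
      have h4 : Cl v (b * r ^ 2 * ((t - 1) * D)) := by
        apply close (mul_ne_zero ht10 hD0)
        have : b * r ^ 2 - (t - 1) * D = a * b * z ^ 2 := by rw [hYZ]
        rw [this, htD1]; exact hZ1
      exact ⟨h3.cancel, h4.cancel⟩

/-- the place at infinity, `D` of odd degree -/
theorem pt_inf_odd {t D a b : M} {n : ℤ} (hn : Odd n) (hD : v D = exp n) (ht : v t = exp (1 : ℤ))
    (h : Pt t D a b) : (Ev v a ∧ Cl v (a * b)) ∨ (Ev v (a * t) ∧ Cl v (-(a * b * (t * D)))) := by
  obtain ⟨u, r, z, h1, h2⟩ := h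
  have htD : v (t * D) = exp (n + 1) := by rw [map_mul, ht, hD, ← exp_add]; congr 1; ring
  have hDtD : v D < v (t * D) := by rw [hD, htD, exp_lt_exp]; omega
  have hD0 : D ≠ 0 := by
    rintro rfl
    rw [map_zero] at hD
    exact exp_ne_zero hD.symm
  have ht0 : t ≠ 0 := by
    rintro rfl
    rw [map_zero] at ht
    exact exp_ne_zero ht.symm
  have hXZ : a * b * z ^ 2 = a * u ^ 2 - t * D := by linear_combination -h2
  have hXY : b * r ^ 2 = a * u ^ 2 - D := by linear_combination -h1
  have hn1 : Even (n + 1) := hn.add_odd odd_one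
  rcases lt_trichotomy (v (a * u ^ 2)) (v (t * D)) with hX | hX | hX
  · right
    have h4 : Cl v (a * b * z ^ 2 * (-(t * D))) := by
      apply close (neg_ne_zero.2 (mul_ne_zero ht0 hD0))
      have : a * b * z ^ 2 - -(t * D) = a * u ^ 2 := by rw [hXZ]; ring
      rw [this, Valuation.map_neg]; exact hX
    have h5 : Cl v (a * b * (-(t * D))) := h4.cancel
    refine ⟨?_, by rwa [mul_neg] at h5⟩
    -- parity of `a`
    have hX2 : v (a * u ^ 2) ≤ exp n := by
      rw [htD] at hX
      by_cases h0 : v (a * u ^ 2) = 0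
      · rw [h0]; exact zero_le
      · rw [← exp_log h0, exp_lt_exp] at hX
        rw [← exp_log h0, exp_le_exp]; omega
    rcases lt_or_eq_of_le hX2 with hX3 | hX3
    · have h6 : v (b * r ^ 2) = exp n := by
        rw [hXY, v.map_sub_eq_of_lt_right (by rw [hD]; exact hX3), hD]
      have h7 : Ev v (b * t) := Ev.cancel_exp h6 ht hn1
      have h8 : Ev v (a * b) := by
        have h9 : Ev v ((-(t * D)) * (a * b)) := by
          have : (-(t * D)) * (a * b) = a * b * (-(t * D)) := by ring
          rw [this]; exact h5.ev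
        exact (Ev.of_exp (n := n + 1) (by rw [Valuation.map_neg]; exact htD) hn1).of_mul h9
      have h10 := h7.mul h8
      have h11 : b * t * (a * b) = a * t * b ^ 2 := by ring
      rw [h11] at h10
      have hb : b ≠ 0 := left_ne_zero_of_mul h7.ne_zero
      exact Ev.of_mul_sq hb h10
    · exact Ev.cancel_exp hX3 ht hn1
  · left
    have hX0 : a * u ^ 2 ≠ 0 := by
      intro h0; rw [h0, map_zero, htD] at hX; exact exp_ne_zero hX.symm
    refine ⟨evexp hn1 (by rw [hX, htD]), ?_⟩
    have h3 : Cl v (b * r ^ 2 * (a * u ^ 2)) := by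
      apply close hX0
      have : b * r ^ 2 - a * u ^ 2 = -D := by rw [hXY]; ring
      rw [this, Valuation.map_neg, hX]; exact hDtD
    have h4 : Cl v (b * (a * u ^ 2)) := h3.cancel
    have h5 : b * (a * u ^ 2) = a * b * u ^ 2 := by ring
    rw [h5] at h4
    have hu : u ≠ 0 := by rintro rfl; apply hX0; ring
    exact Cl.of_mul_sq hu h4
  · left
    obtain ⟨h3, h4⟩ := large h1 h2 (hDtD.trans hX) hX
    exact ⟨h3.ev, h3.mul h4⟩

/-- the place at infinity, `D` of even degree -/
theorem pt_inf_even {t D a b : M} {n : ℤ} (hn : Even n) (hD : v D = exp n)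
    (ht : v t = exp (1 : ℤ)) (h : Pt t D a b) : (Cl v a ∧ Cl v b) ∨
      (Cl v (a * t) ∧ Cl v (-(b * D))) ∨ (Cl v (a * D) ∧ Cl v (-(b * t))) ∨
      (Cl v (a * (t * D)) ∧ Cl v (b * (t * D))) := by
  obtain ⟨u, r, z, h1, h2⟩ := h
  have htD : v (t * D) = exp (n + 1) := by rw [map_mul, ht, hD, ← exp_add]; congr 1; ring
  have hDtD : v D < v (t * D) := by rw [hD, htD, exp_lt_exp]; omega
  have hD0 : D ≠ 0 := by
    rintro rfl
    rw [map_zero] at hD
    exact exp_ne_zero hD.symm
  have ht0 : t ≠ 0 := by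
    rintro rfl
    rw [map_zero] at ht
    exact exp_ne_zero ht.symm
  have hXZ : a * b * z ^ 2 = a * u ^ 2 - t * D := by linear_combination -h2
  have hXY : b * r ^ 2 = a * u ^ 2 - D := by linear_combination -h1
  have hn1 : ¬ Even (n + 1) := by rw [Int.even_add_one]; simpa using hn
  rcases lt_trichotomy (v (a * u ^ 2)) (v (t * D)) with hX | hX | hX
  · right
    have h4 : Cl v (a * b * z ^ 2 * (-(t * D))) := by
      apply close (neg_ne_zero.2 (mul_ne_zero ht0 hD0))
      have : a * b * z ^ 2 - -(t * D) = a * u ^ 2 := by rw [hXZ]; ring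
      rw [this, Valuation.map_neg]; exact hX
    have h5 : Cl v (a * b * (-(t * D))) := h4.cancel
    have hab : ¬ Ev v (a * b) := by
      intro h6
      have h7 : Ev v (-(t * D)) := h6.of_mul h5.ev
      have h8 := h7.even (n := n + 1) (by rw [Valuation.map_neg]; exact htD)
      exact hn1 h8
    have hX2 : v (a * u ^ 2) ≤ exp n := by
      rw [htD] at hX
      by_cases h0 : v (a * u ^ 2) = 0
      · rw [h0]; exact zero_le
      · rw [← exp_log h0, exp_lt_exp] at hX
        rw [← exp_log h0, exp_le_exp]; omega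
    rcases lt_or_eq_of_le hX2 with hX3 | hX3
    · left
      have h6 : Cl v (b * r ^ 2 * (-D)) := by
        apply close (neg_ne_zero.2 hD0)
        have : b * r ^ 2 - -D = a * u ^ 2 := by rw [hXY]; ring
        rw [this, Valuation.map_neg, hD]; exact hX3
      have h7 : Cl v (b * (-D)) := h6.cancel
      refine ⟨?_, by rwa [mul_neg] at h7⟩
      apply h7.of_mul
      have h8 : b * -D * (a * t) = a * b * (-(t * D)) := by ring
      rw [h8]; exact h5
    · right; left
      have ha : Ev v a := evexp hn hX3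
      have hY : v (b * r ^ 2) < exp n := by
        have h6 : v (b * r ^ 2) ≤ exp n := by
          rw [hXY]; exact (v.map_sub _ _).trans (max_le hX3.le hD.le)
        refine lt_of_le_of_ne h6 fun h7 => ?_
        exact hab (ha.mul (evexp hn h7))
      have h3 : Cl v (a * u ^ 2 * D) := by
        apply close hD0
        have : a * u ^ 2 - D = b * r ^ 2 := by rw [hXY]
        rw [this, hD]; exact hY
      have h6 : Cl v (a * D) := h3.cancel
      refine ⟨h6, ?_⟩
      apply h6.of_mul
      have h7 : a * D * (-(b * t)) = a * b * (-(t * D)) := by ring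
      rw [h7]; exact h5
  · right; right; right
    have hX0 : a * u ^ 2 ≠ 0 := by
      intro h0; rw [h0, map_zero, htD] at hX; exact exp_ne_zero hX.symm
    have hu : u ≠ 0 := by rintro rfl; apply hX0; ring
    have h3 : Cl v (b * r ^ 2 * (a * u ^ 2)) := by
      apply close hX0
      have : b * r ^ 2 - a * u ^ 2 = -D := by rw [hXY]; ring
      rw [this, Valuation.map_neg, hX]; exact hDtD
    have h4 : Cl v (b * (a * u ^ 2)) := h3.cancel
    have h5 : b * (a * u ^ 2) = a * b * u ^ 2 := by ring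
    rw [h5] at h4
    have hab : Cl v (a * b) := Cl.of_mul_sq hu h4
    have hZ : v (a * b * z ^ 2) < v (t * D) := by
      have h6 : v (a * b * z ^ 2) ≤ v (t * D) := by
        rw [hXZ]; exact (v.map_sub _ _).trans (max_le hX.le le_rfl)
      refine lt_of_le_of_ne h6 fun h7 => ?_
      have hz : z ≠ 0 := by
        rintro rfl
        rw [zero_pow two_ne_zero, mul_zero, map_zero, htD] at h7
        exact exp_ne_zero h7.symm
      have h8 : Ev v (a * b * z ^ 2) := hab.ev.mul (Ev.sq hz)
      exact hn1 (h8.even (h7.trans htD))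
    have h6 : Cl v (a * u ^ 2 * (t * D)) := by
      apply close (mul_ne_zero ht0 hD0)
      have : a * u ^ 2 - t * D = a * b * z ^ 2 := by rw [hXZ]
      rw [this]; exact hZ
    have h7 : Cl v (a * (t * D)) := h6.cancel
    refine ⟨h7, ?_⟩
    have h8 : Cl v (b * a) := by rwa [mul_comm] at hab
    exact h8.trans h7
  · left
    exact large h1 h2 (hDtD.trans hX) hX

end

end Pool.Agent.H94.LT
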