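import Pool.Agent.H94.TC.Adic
import Pool.Agent.H94.LT.Places

/-!
Finite places of `F(t)`: from square classes in the completion to residue classes.
-/

namespace Pool.Agent.H94.LT

open Polynomial WithZero IsDedekindDomain HeightOneSpectrum

section

variable {A K : Type*} [CommRing A] [IsDedekindDomain A] [Field K] [Algebra A K]
  [IsFractionRing A K] (v : HeightOneSpectrum A)

theorem val_K (x : K) : (Valued.v (algebraMap K (v.adicCompletion K) x) : ℤᵐ⁰) =
    v.valuation K x := by
  rw [algebraMap_adicCompletion]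
  exact valuedAdicCompletion_eq_valuation' v x

theorem val_A (x : A) : (Valued.v (algebraMap K (v.adicCompletion K) (algebraMap A K x)) : ℤᵐ⁰) =
    v.intValuation x := by
  rw [val_K]
  exact v.valuation_of_algebraMap x

theorem val_A_eq_one_iff (x : A) :
    (Valued.v (algebraMap K (v.adicCompletion K) (algebraMap A K x)) : ℤᵐ⁰) = 1 ↔
      x ∉ v.asIdeal := by
  rw [val_A]
  rw [← not_iff_not, not_not, ← v.intValuation_lt_one_iff_mem]
  exact ⟨fun h => lt_of_le_of_ne (v.intValuation_le_one x) h, fun h => h.ne⟩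

theorem val_A_lt_one_iff (x : A) :
    (Valued.v (algebraMap K (v.adicCompletion K) (algebraMap A K x)) : ℤᵐ⁰) < 1 ↔
      x ∈ v.asIdeal := by
  rw [val_A, v.intValuation_lt_one_iff_mem]

theorem val_gen (ϖ : A) (hϖ : ϖ ≠ 0) (hv : v.asIdeal = Ideal.span {ϖ}) :
    (Valued.v (algebraMap K (v.adicCompletion K) (algebraMap A K ϖ)) : ℤᵐ⁰) = exp (-1 : ℤ) := by
  rw [val_A, v.intValuation_singleton hϖ hv]

/-- from a square class in the completion to a congruence -/
theorem exists_of_Cl (ϖ : A) (hϖ : ϖ ≠ 0) (hv : v.asIdeal = Ideal.span {ϖ}) (g : A)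
    (hg : g ∉ v.asIdeal)
    (h : Cl (Valued.v : Valuation (v.adicCompletion K) ℤᵐ⁰)
      (algebraMap K (v.adicCompletion K) (algebraMap A K g))) :
    ∃ y : A, g * y ^ 2 - 1 ∈ v.asIdeal := by
  obtain ⟨s, hs, h1⟩ := h
  have hg1 := (val_A_eq_one_iff (K := K) v g).2 hg
  have hs1 : (Valued.v s : ℤᵐ⁰) = 1 := by
    have h2 := val_eq_one_of_sub h1
    rw [map_mul, hg1, one_mul, map_pow] at h2
    have hs0 : (Valued.v s : ℤᵐ⁰) ≠ 0 := (Valuation.ne_zero_iff _).2 hs
    rw [← exp_log hs0, ← exp_nsmul, ← exp_zero, exp_inj, nsmul_eq_mul] at h2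
    rw [← exp_log hs0, ← exp_zero, exp_inj]
    push_cast at h2
    omega
  obtain ⟨y, hy⟩ := TC.exists_approx (K := K) v ϖ hϖ hv 1 ⟨s, hs1.le⟩
  rw [TC.pow_dvd_iff (K := K) v ϖ hϖ hv] at hy
  have hy1 : (Valued.v (s - algebraMap K (v.adicCompletion K) (algebraMap A K y)) : ℤᵐ⁰) < 1 := by
    rw [lt_one_iff_le]
    have h3 : (((⟨s, hs1.le⟩ : v.adicCompletionIntegers K) -
      algebraMap A (v.adicCompletionIntegers K) y : v.adicCompletionIntegers K) :
      v.adicCompletion K) = s - algebraMap K (v.adicCompletion K) (algebraMap A K y) := by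
      rw [algebraMap_adicCompletion]
      push_cast
      rw [algebraMap_adicCompletionIntegers_apply]
      rfl
    rw [h3] at hy
    exact_mod_cast hy
  refine ⟨y, ?_⟩
  rw [← val_A_lt_one_iff (K := K)]
  set G := algebraMap K (v.adicCompletion K) (algebraMap A K g) with hG
  set Y := algebraMap K (v.adicCompletion K) (algebraMap A K y) with hY
  have h4 : algebraMap K (v.adicCompletion K) (algebraMap A K (g * y ^ 2 - 1)) = G * Y ^ 2 - 1 := by
    simp only [map_sub, map_mul, map_pow, map_one, hG, hY]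
  rw [h4]
  have hYle : (Valued.v Y : ℤᵐ⁰) ≤ 1 := by
    rw [hY, val_A]; exact v.intValuation_le_one y
  have h5 : G * Y ^ 2 - 1 = (G * s ^ 2 - 1) - G * ((s - Y) * (s + Y)) := by ring
  rw [h5]
  refine lt_of_le_of_lt (Valuation.map_sub _ _ _) (max_lt h1 ?_)
  rw [map_mul, hg1, one_mul, map_mul]
  refine lt_of_le_of_lt (mul_le_of_le_one_right' ?_) hy1
  exact (Valuation.map_add _ _ _).trans (max_le hs1.le hYle)

end

section

variable {F : Type*} [Field F]

theorem exists_sqfree_rep (a : RatFunc F) (ha : a ≠ 0) :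
    ∃ g : F[X], Squarefree g ∧ ∃ s : RatFunc F, s ≠ 0 ∧ a = algebraMap F[X] (RatFunc F) g * s ^ 2 := by
  classical
  have hex : ∃ n : ℕ, ∃ g : F[X], g.natDegree = n ∧ g ≠ 0 ∧ ∃ s : RatFunc F, s ≠ 0 ∧
      a = algebraMap F[X] (RatFunc F) g * s ^ 2 := by
    obtain ⟨x, y, hy, hxy⟩ := IsFractionRing.div_surjective (A := F[X]) a
    have hy0 : y ≠ 0 := nonZeroDivisors.ne_zero hy
    have hyK : algebraMap F[X] (RatFunc F) y ≠ 0 := by
      rw [Ne, FaithfulSMul.algebraMap_eq_zero_iff]; exact hy0
    have hx0 : x ≠ 0 := by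
      rintro rfl
      rw [map_zero, zero_div] at hxy
      exact ha hxy.symm
    refine ⟨_, x * y, rfl, mul_ne_zero hx0 hy0, (algebraMap F[X] (RatFunc F) y)⁻¹,
      inv_ne_zero hyK, ?_⟩
    rw [← hxy, map_mul]
    field_simp
  obtain ⟨g, hg, hg0, s, hs, has⟩ := Nat.find_spec hex
  refine ⟨g, ?_, s, hs, has⟩
  intro q hq
  obtain ⟨h, hh⟩ := hq
  have hq0 : q ≠ 0 := by
    rintro rfl
    rw [zero_mul, zero_mul] at hh
    exact hg0 hh
  have hh0 : h ≠ 0 := by
    rintro rfl
    rw [mul_zero] at hh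
    exact hg0 hh
  have hqK : algebraMap F[X] (RatFunc F) q ≠ 0 := by
    rw [Ne, FaithfulSMul.algebraMap_eq_zero_iff]; exact hq0
  have hmin := Nat.find_min' hex (m := h.natDegree) ⟨h, rfl, hh0,
    algebraMap F[X] (RatFunc F) q * s, mul_ne_zero hqK hs, by
      rw [has, hh, map_mul, map_mul]; ring⟩
  rw [← hg, hh, natDegree_mul (mul_ne_zero hq0 hq0) hh0, natDegree_mul hq0 hq0] at hmin
  rw [Polynomial.isUnit_iff_degree_eq_zero, Polynomial.degree_eq_natDegree hq0]
  have : q.natDegree = 0 := by omega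
  rw [this]; rfl

/-- the place of an irreducible polynomial -/
noncomputable def place (Q : F[X]) (hQ : Irreducible Q) : HeightOneSpectrum F[X] where
  asIdeal := Ideal.span {Q}
  isPrime := (Ideal.span_singleton_prime hQ.ne_zero).2 hQ.prime
  ne_bot := by rw [Ne, Ideal.span_singleton_eq_bot]; exact hQ.ne_zero

theorem rep_dvd (a : RatFunc F) (g : F[X]) (hg : Squarefree g) (s : RatFunc F) (hs : s ≠ 0)
    (ha : a = algebraMap F[X] (RatFunc F) g * s ^ 2) (H : F[X]) (hH : H ≠ 0)
    (hev : ∀ v : HeightOneSpectrum F[X], H ∉ v.asIdeal →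
      Ev (Valued.v : Valuation (v.adicCompletion (RatFunc F)) ℤᵐ⁰)
        (algebraMap (RatFunc F) (v.adicCompletion (RatFunc F)) a)) : g ∣ H := by
  classical
  -- every irreducible factor of `g` divides `H`
  have hirr : ∀ Q : F[X], Irreducible Q → Q ∣ g → Q ∣ H := by
    intro Q hQ hQg
    by_contra hQH
    have h1 := hev (place Q hQ) (by
      show H ∉ Ideal.span {Q}
      rw [Ideal.mem_span_singleton]; exact hQH)
    rw [ha, map_mul, map_pow] at h1
    have h2 := Ev.of_mul_sq (by rw [Ne, map_eq_zero]; exact hs) h1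
    obtain ⟨h, rfl⟩ := hQg
    have hQh : ¬ Q ∣ h := by
      intro hd
      obtain ⟨k, rfl⟩ := hd
      exact hQ.not_isUnit (hg Q ⟨k, by ring⟩)
    have h3 : (Valued.v (algebraMap (RatFunc F) ((place Q hQ).adicCompletion (RatFunc F))
        (algebraMap F[X] (RatFunc F) (Q * h))) : ℤᵐ⁰) = exp (-1 : ℤ) := by
      rw [val_A, map_mul, (place Q hQ).intValuation_singleton hQ.ne_zero rfl]
      have h4 : (place Q hQ).intValuation h = 1 := by
        rw [← val_A (K := RatFunc F), val_A_eq_one_iff]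
        show h ∉ Ideal.span {Q}
        rw [Ideal.mem_span_singleton]; exact hQh
      rw [h4, mul_one]
    have h5 := h2.even h3
    revert h5; decide
  -- induction over coprime factorizations
  have : ∀ g : F[X], Squarefree g → (∀ Q : F[X], Irreducible Q → Q ∣ g → Q ∣ H) → g ∣ H := by
    intro g
    induction g using UniqueFactorizationMonoid.induction_on_coprime with
    | h0 => intro h; exact absurd h (by simp)
    | h1 hx => intro _ _; exact hx.dvd
    | hpr i hp =>
      intro hsq hall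
      rename_i p
      rcases Nat.eq_zero_or_pos i with hi | hi
      · rw [hi, pow_zero]; exact one_dvd _
      · have hi1 : i = 1 := by
          by_contra hne
          have : p * p ∣ p ^ i := by
            rw [← sq]; exact pow_dvd_pow p (by omega)
          exact hp.not_unit (hsq p this)
        rw [hi1, pow_one]
        apply hall p hp.irreducible
        rw [hi1, pow_one]
    | hcp hxy ihx ihy =>
      intro hsq hall
      rename_i x y
      have hx := ihx (hsq.of_mul_left) (fun Q hQ hd => hall Q hQ (Dvd.dvd.mul_right hd y))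
      have hy := ihy (hsq.of_mul_right) (fun Q hQ hd => hall Q hQ (Dvd.dvd.mul_left hd x))
      exact (IsRelPrime.isCoprime hxy).mul_dvd hx hy
  exact this g hg hirr

end

end Pool.Agent.H94.LT
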