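import Pool.Agent.H94.LT.Places

/-!
The place at infinity of `F(t)`.
-/

namespace Pool.Agent.H94.LT

open Polynomial WithZero

section

variable {F : Type*} [Field F] [DecidableEq (RatFunc F)]

open RatFunc.CompletionAtInfty in
theorem val_inf (x : RatFunc F) :
    (Valued.v (algebraMap (RatFunc F) (RatFunc.CompletionAtInfty F) x) : ℤᵐ⁰) =
      RatFunc.inftyValuation F x := by
  letI := RatFunc.inftyValued F
  exact Valued.valuedCompletion_apply (K := RatFunc F) x

theorem val_inf_poly {p : F[X]} (hp : p ≠ 0) :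
    (Valued.v (algebraMap (RatFunc F) (RatFunc.CompletionAtInfty F)
      (algebraMap F[X] (RatFunc F) p)) : ℤᵐ⁰) = exp (p.natDegree : ℤ) := by
  rw [val_inf, RatFunc.inftyValuation_apply, RatFunc.inftyValuation.polynomial F hp]

open RatFunc.CompletionAtInfty in
theorem dense_inf : DenseRange (algebraMap (RatFunc F) (RatFunc.CompletionAtInfty F)) := by
  letI := RatFunc.inftyValued F
  exact UniformSpace.Completion.denseRange_coe (α := RatFunc F)

theorem val_const {c : F} (hc : c ≠ 0) :
    (Valued.v (algebraMap (RatFunc F) (RatFunc.CompletionAtInfty F)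
      (algebraMap F[X] (RatFunc F) (C c))) : ℤᵐ⁰) = 1 := by
  rw [val_inf_poly (by rwa [Ne, C_eq_zero]), natDegree_C]; simp

/-- a polynomial is close to its leading term -/
theorem val_sub_lead (p : F[X]) (hp : p ≠ 0) :
    (Valued.v (algebraMap (RatFunc F) (RatFunc.CompletionAtInfty F)
      (algebraMap F[X] (RatFunc F) (p - C p.leadingCoeff * X ^ p.natDegree))) : ℤᵐ⁰) <
    Valued.v (algebraMap (RatFunc F) (RatFunc.CompletionAtInfty F)
      (algebraMap F[X] (RatFunc F) p)) := by
  by_cases h0 : p - C p.leadingCoeff * X ^ p.natDegree = 0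
  · rw [h0, map_zero, map_zero, map_zero, val_inf_poly hp]
    exact exp_pos
  · rw [val_inf_poly hp, val_inf_poly h0, exp_lt_exp]
    have h1 : (p - C p.leadingCoeff * X ^ p.natDegree).degree < p.degree := by
      apply degree_sub_lt_left
      · rw [degree_C_mul_X_pow _ (leadingCoeff_ne_zero.2 hp), degree_eq_natDegree hp]
      · exact hp
      · rw [leadingCoeff_mul_X_pow, leadingCoeff_C]
    rw [degree_eq_natDegree h0, degree_eq_natDegree hp] at h1
    exact_mod_cast h1

theorem exists_const (s : RatFunc.CompletionAtInfty F) (hs : (Valued.v s : ℤᵐ⁰) = 1) :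
    ∃ c : F, c ≠ 0 ∧ (Valued.v (s - algebraMap (RatFunc F) (RatFunc.CompletionAtInfty F)
      (algebraMap F[X] (RatFunc F) (C c))) : ℤᵐ⁰) < 1 := by
  -- approximate by an element of `F(t)`
  obtain ⟨x, hx⟩ : ∃ x : RatFunc F, (Valued.v (s - algebraMap (RatFunc F)
      (RatFunc.CompletionAtInfty F) x) : ℤᵐ⁰) < 1 := by
    have h1 : {y : RatFunc.CompletionAtInfty F | (Valued.v (y - s) : ℤᵐ⁰) < 1} ∈ nhds s := by
      have h3 : {y : RatFunc.CompletionAtInfty F | (Valued.v y : ℤᵐ⁰) < 1} ∈ nhds (s - s) := by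
        rw [sub_self, Valued.mem_nhds_zero]
        refine ⟨1, ?_⟩
        intro y hy
        simpa [Valuation.restrict_lt_one_iff] using hy
      have h2 : ContinuousAt (fun y : RatFunc.CompletionAtInfty F => y - s) s := by fun_prop
      exact h2.preimage_mem_nhds h3
    obtain ⟨x, hx⟩ := (dense_inf (F := F)).exists_mem_open isOpen_interior
      ⟨s, mem_interior_iff_mem_nhds.2 h1⟩
    refine ⟨x, ?_⟩
    rw [Valuation.map_sub_swap]
    have h9 := interior_subset hx
    exact h9
  have hx1 : (Valued.v (algebraMap (RatFunc F) (RatFunc.CompletionAtInfty F) x) : ℤᵐ⁰) = 1 := by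
    have : algebraMap (RatFunc F) (RatFunc.CompletionAtInfty F) x =
      s - (s - algebraMap (RatFunc F) (RatFunc.CompletionAtInfty F) x) := by ring
    rw [this, Valuation.map_sub_eq_of_lt_left _ (by rw [hs]; exact hx), hs]
  obtain ⟨p, q, hq, rfl⟩ := IsFractionRing.div_surjective (A := F[X]) x
  have hq0 : q ≠ 0 := nonZeroDivisors.ne_zero hq
  have hqK : algebraMap F[X] (RatFunc F) q ≠ 0 := by
    rw [Ne, FaithfulSMul.algebraMap_eq_zero_iff]; exact hq0
  have hp0 : p ≠ 0 := by
    rintro rfl
    rw [map_zero, zero_div, map_zero, map_zero] at hx1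
    exact zero_ne_one hx1
  have hdeg : p.natDegree = q.natDegree := by
    rw [map_div₀, map_div₀, val_inf_poly hp0, val_inf_poly hq0, ← exp_sub, ← exp_zero,
      exp_inj] at hx1
    omega
  refine ⟨p.leadingCoeff / q.leadingCoeff, div_ne_zero (leadingCoeff_ne_zero.2 hp0)
    (leadingCoeff_ne_zero.2 hq0), ?_⟩
  set c := p.leadingCoeff / q.leadingCoeff with hc
  have hc0 : c ≠ 0 := div_ne_zero (leadingCoeff_ne_zero.2 hp0) (leadingCoeff_ne_zero.2 hq0)
  have h2 : s - algebraMap (RatFunc F) (RatFunc.CompletionAtInfty F)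
      (algebraMap F[X] (RatFunc F) (C c)) =
      (s - algebraMap (RatFunc F) (RatFunc.CompletionAtInfty F)
        (algebraMap F[X] (RatFunc F) p / algebraMap F[X] (RatFunc F) q)) +
      algebraMap (RatFunc F) (RatFunc.CompletionAtInfty F)
        (algebraMap F[X] (RatFunc F) (p - C c * q) / algebraMap F[X] (RatFunc F) q) := by
    have : algebraMap F[X] (RatFunc F) (C c) = algebraMap F[X] (RatFunc F) p /
        algebraMap F[X] (RatFunc F) q - algebraMap F[X] (RatFunc F) (p - C c * q) /
        algebraMap F[X] (RatFunc F) q := by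
      rw [map_sub, map_mul]; field_simp; ring
    rw [this, map_sub]; ring
  rw [h2]
  refine lt_of_le_of_lt (Valuation.map_add _ _ _) (max_lt hx ?_)
  rw [map_div₀, map_div₀, val_inf_poly hq0]
  by_cases h0 : p - C c * q = 0
  · rw [h0, map_zero, map_zero, map_zero, zero_div]; exact zero_lt_one
  · rw [val_inf_poly h0, ← exp_sub, ← exp_zero, exp_lt_exp]
    have h3 : (p - C c * q).degree < p.degree := by
      apply degree_sub_lt_left
      · rw [degree_C_mul hc0, degree_eq_natDegree hp0, degree_eq_natDegree hq0, hdeg]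
      · exact hp0
      · rw [leadingCoeff_mul, leadingCoeff_C, hc, div_mul_cancel₀ _ (leadingCoeff_ne_zero.2 hq0)]
    rw [degree_eq_natDegree h0, degree_eq_natDegree hp0] at h3
    have h4 : (p - C c * q).natDegree < p.natDegree := by exact_mod_cast h3
    omega

/-- from a square class at infinity to a square in `F` -/
theorem isSquare_of_Cl {c : F} (h : Cl (Valued.v : Valuation (RatFunc.CompletionAtInfty F) ℤᵐ⁰)
      (algebraMap (RatFunc F) (RatFunc.CompletionAtInfty F)
        (algebraMap F[X] (RatFunc F) (C c)))) : IsSquare c := by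
  have hc : c ≠ 0 := by
    rintro rfl
    apply h.ne_zero
    simp
  obtain ⟨s, hs, h1⟩ := h
  have hs1 : (Valued.v s : ℤᵐ⁰) = 1 := by
    have h2 := val_eq_one_of_sub h1
    rw [map_mul, val_const hc, one_mul, map_pow] at h2
    have hs0 : (Valued.v s : ℤᵐ⁰) ≠ 0 := (Valuation.ne_zero_iff _).2 hs
    rw [← exp_log hs0, ← exp_nsmul, ← exp_zero, exp_inj, nsmul_eq_mul] at h2
    rw [← exp_log hs0, ← exp_zero, exp_inj]
    push_cast at h2
    omega
  obtain ⟨d, hd, h3⟩ := exists_const s hs1
  set G := algebraMap (RatFunc F) (RatFunc.CompletionAtInfty F)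
        (algebraMap F[X] (RatFunc F) (C c)) with hG
  set Y := algebraMap (RatFunc F) (RatFunc.CompletionAtInfty F)
        (algebraMap F[X] (RatFunc F) (C d)) with hY
  have h4 : (Valued.v (G * Y ^ 2 - 1) : ℤᵐ⁰) < 1 := by
    have h5 : G * Y ^ 2 - 1 = (G * s ^ 2 - 1) - G * ((s - Y) * (s + Y)) := by ring
    rw [h5]
    refine lt_of_le_of_lt (Valuation.map_sub _ _ _) (max_lt h1 ?_)
    rw [map_mul, val_const hc, one_mul, map_mul]
    refine lt_of_le_of_lt (mul_le_of_le_one_right' ?_) h3
    exact (Valuation.map_add _ _ _).trans (max_le hs1.le (val_const hd).le)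
  have h6 : G * Y ^ 2 - 1 = algebraMap (RatFunc F) (RatFunc.CompletionAtInfty F)
        (algebraMap F[X] (RatFunc F) (C (c * d ^ 2 - 1))) := by
    rw [hG, hY]
    simp only [map_sub, map_mul, map_pow, map_one]
  rw [h6] at h4
  have h7 : c * d ^ 2 - 1 = 0 := by
    by_contra hne
    rw [val_const hne] at h4
    exact lt_irrefl _ h4
  refine ⟨d⁻¹, ?_⟩
  have h8 : c * d ^ 2 = 1 := by linear_combination h7
  field_simp
  linear_combination h8

/-- the square class at infinity of a polynomial of even degree -/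
theorem Cl_lead {p : F[X]} (hp : p ≠ 0) (hev : Even p.natDegree)
    (h : Cl (Valued.v : Valuation (RatFunc.CompletionAtInfty F) ℤᵐ⁰)
      (algebraMap (RatFunc F) (RatFunc.CompletionAtInfty F)
        (algebraMap F[X] (RatFunc F) p))) : IsSquare p.leadingCoeff := by
  apply isSquare_of_Cl
  have hX0 : algebraMap (RatFunc F) (RatFunc.CompletionAtInfty F)
      (algebraMap F[X] (RatFunc F) X) ≠ 0 := by
    rw [Ne, map_eq_zero, FaithfulSMul.algebraMap_eq_zero_iff]
    exact X_ne_zero
  have h1 : Cl (Valued.v : Valuation (RatFunc.CompletionAtInfty F) ℤᵐ⁰)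
      (algebraMap (RatFunc F) (RatFunc.CompletionAtInfty F)
        (algebraMap F[X] (RatFunc F) (C p.leadingCoeff * X ^ p.natDegree)) *
      algebraMap (RatFunc F) (RatFunc.CompletionAtInfty F)
        (algebraMap F[X] (RatFunc F) p)) := by
    apply close
    · rw [Ne, map_eq_zero, FaithfulSMul.algebraMap_eq_zero_iff]; exact hp
    · rw [← map_sub, ← map_sub, ← neg_sub p, map_neg, map_neg, Valuation.map_neg]
      exact val_sub_lead p hp
  rw [mul_comm] at h1
  have h2 := h.of_mul h1
  obtain ⟨k, hk⟩ := hev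
  rw [hk, ← two_mul, mul_comm 2 k, pow_mul, map_mul, map_mul, map_pow, map_pow] at h2
  refine Cl.of_mul_sq ?_ h2
  rw [map_pow, map_pow]
  exact pow_ne_zero _ hX0

end

end Pool.Agent.H94.LT
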