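import Mathlib

/-!
Square classes modulo `1 + m` in a valued field, and the local analysis of the `2`-coverings
`a u² - b r² = D w²`, `a u² - a b z² = t D w²`.
-/

namespace Pool.Agent.H94.LT

open WithZero

section

variable {M : Type*} [Field M] (v : Valuation M ℤᵐ⁰)

/-- `x` is a square times an element congruent to `1`. -/
def Cl (x : M) : Prop := ∃ s : M, s ≠ 0 ∧ v (x * s ^ 2 - 1) < 1

/-- `x` is nonzero and the valuation of `x` is even -/
def Ev (x : M) : Prop := x ≠ 0 ∧ Even (log (v x))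

variable {v}

theorem val_eq_one_of_sub {x : M} (h : v (x - 1) < 1) : v x = 1 := by
  have h1 : x = 1 + (x - 1) := by ring
  rw [h1]
  exact v.map_one_add_of_lt h

theorem Ev.ne_zero {x : M} (h : Ev v x) : x ≠ 0 := h.1

theorem log_mul' {x y : M} (hx : x ≠ 0) (hy : y ≠ 0) :
    log (v (x * y)) = log (v x) + log (v y) := by
  rw [map_mul, log_mul ((v.ne_zero_iff).2 hx) ((v.ne_zero_iff).2 hy)]

theorem Ev.mul {x y : M} (hx : Ev v x) (hy : Ev v y) : Ev v (x * y) :=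
  ⟨mul_ne_zero hx.1 hy.1, by rw [log_mul' hx.1 hy.1]; exact hx.2.add hy.2⟩

theorem Ev.of_mul_sq {x s : M} (hs : s ≠ 0) (h : Ev v (x * s ^ 2)) : Ev v x := by
  obtain ⟨h0, h1⟩ := h
  have hx : x ≠ 0 := left_ne_zero_of_mul h0
  refine ⟨hx, ?_⟩
  rw [log_mul' hx (pow_ne_zero 2 hs), map_pow, log_pow, Int.even_add] at h1
  exact h1.2 ⟨log (v s), by simp; ring⟩

theorem Ev.of_mul {x y : M} (hx : Ev v x) (h : Ev v (x * y)) : Ev v y := by
  have h1 := hx.mul h
  have h2 : x * (x * y) = y * x ^ 2 := by ring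
  rw [h2] at h1
  exact Ev.of_mul_sq hx.ne_zero h1

theorem Ev.of_val {x : M} (h : v x = 1) : Ev v x :=
  ⟨by rintro rfl; simp at h, by rw [h]; simp⟩

theorem Ev.sq {s : M} (hs : s ≠ 0) : Ev v (s ^ 2) :=
  ⟨pow_ne_zero 2 hs, by rw [map_pow, log_pow]; exact ⟨log (v s), by simp; ring⟩⟩

theorem Cl.ev {x : M} (h : Cl v x) : Ev v x := by
  obtain ⟨s, hs, h⟩ := h
  exact Ev.of_mul_sq hs (Ev.of_val (val_eq_one_of_sub h))

theorem Cl.ne_zero {x : M} (h : Cl v x) : x ≠ 0 := h.ev.ne_zero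

theorem Cl.of_lt {x : M} (h : v (x - 1) < 1) : Cl v x := ⟨1, one_ne_zero, by simpa using h⟩

theorem Cl.sq {s : M} (hs : s ≠ 0) : Cl v (s ^ 2) :=
  ⟨s⁻¹, inv_ne_zero hs, by
    rw [← mul_pow, mul_inv_cancel₀ hs]; simp⟩

theorem Cl.mul_self {s : M} (hs : s ≠ 0) : Cl v (s * s) := by rw [← pow_two]; exact Cl.sq hs

theorem Cl.one : Cl v 1 := by simpa using Cl.sq (v := v) (one_ne_zero (α := M))

theorem Cl.mul {x y : M} (hx : Cl v x) (hy : Cl v y) : Cl v (x * y) := by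
  obtain ⟨s, hs, h1⟩ := hx
  obtain ⟨r, hr, h2⟩ := hy
  refine ⟨s * r, mul_ne_zero hs hr, ?_⟩
  have h3 : x * y * (s * r) ^ 2 - 1 = (x * s ^ 2) * (y * r ^ 2 - 1) + (x * s ^ 2 - 1) := by ring
  rw [h3]
  refine lt_of_le_of_lt (v.map_add _ _) (max_lt ?_ h1)
  rw [map_mul, val_eq_one_of_sub h1, one_mul]
  exact h2

theorem Cl.of_mul_sq {x s : M} (hs : s ≠ 0) (h : Cl v (x * s ^ 2)) : Cl v x := by
  obtain ⟨r, hr, h1⟩ := h
  exact ⟨s * r, mul_ne_zero hs hr, by rw [mul_pow, ← mul_assoc]; exact h1⟩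

theorem Cl.of_mul {x y : M} (hx : Cl v x) (h : Cl v (x * y)) : Cl v y := by
  have h1 := hx.mul h
  have h2 : x * (x * y) = y * x ^ 2 := by ring
  rw [h2] at h1
  exact Cl.of_mul_sq hx.ne_zero h1

/-- transitivity of `x ~ y :⇔ Cl (x * y)` -/
theorem Cl.trans {x y z : M} (hxy : Cl v (x * y)) (hyz : Cl v (y * z)) : Cl v (x * z) := by
  have hy : y ≠ 0 := right_ne_zero_of_mul hxy.ne_zero
  have h1 := hxy.mul hyz
  have h2 : x * y * (y * z) = x * z * y ^ 2 := by ring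
  rw [h2] at h1
  exact Cl.of_mul_sq hy h1

/-- parity in terms of the integer valued valuation -/
theorem Ev.even {x : M} {n : ℤ} (h : Ev v x) (hn : v x = exp n) : Even n := by
  have := h.2
  rwa [hn, log_exp] at this

theorem Ev.of_exp {x : M} {n : ℤ} (hn : v x = exp n) (h : Even n) : Ev v x :=
  ⟨by rintro rfl; rw [map_zero] at hn; exact exp_ne_zero hn.symm, by rw [hn, log_exp]; exact h⟩

theorem close {x y : M} (hy : y ≠ 0) (h : v (x - y) < v y) : Cl v (x * y) := by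
  have h1 : v (x / y - 1) < 1 := by
    have h2 : x / y - 1 = (x - y) / y := by field_simp
    rw [h2, map_div₀]
    exact (div_lt_one₀ (by
      rw [zero_lt_iff]; exact (v.ne_zero_iff).2 hy)).2 h
  have h3 : Cl v (x / y) := Cl.of_lt h1
  have h4 : Cl v (x / y * y ^ 2) := h3.mul (Cl.sq hy)
  have h5 : x / y * y ^ 2 = x * y := by field_simp
  rwa [h5] at h4

end

end Pool.Agent.H94.LT
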