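import Pool.Agent.H94.LT.Twist

/-!
From local solubility to the polynomial data.
-/

namespace Pool.Agent.H94.LT

open Polynomial WithZero IsDedekindDomain

section

variable {F : Type*} [Field F]

/-- the trivial alternative, or a point with `w = 1` -/
theorem hasPt_cases {M : Type*} [Field M] [Algebra (RatFunc F) M] (v : Valuation M ℤᵐ⁰)
    {D a b : RatFunc F} (ha : a ≠ 0) (hb : b ≠ 0) (h : HasPt M D a b) :
    (Cl v (algebraMap (RatFunc F) M a) ∧ Cl v (algebraMap (RatFunc F) M b)) ∨
    Pt (algebraMap (RatFunc F) M RatFunc.X) (algebraMap (RatFunc F) M D)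
      (algebraMap (RatFunc F) M a) (algebraMap (RatFunc F) M b) := by
  have ha' : algebraMap (RatFunc F) M a ≠ 0 := by rw [Ne, map_eq_zero]; exact ha
  have hb' : algebraMap (RatFunc F) M b ≠ 0 := by rw [Ne, map_eq_zero]; exact hb
  rcases sol_cases ha' hb' h with ⟨⟨s, hs, h1⟩, ⟨r, hr, h2⟩⟩ | h1
  · left
    rw [h1, h2]
    exact ⟨Cl.sq hs, Cl.sq hr⟩
  · exact Or.inr h1

theorem exists_data [DecidableEq (RatFunc F)] (D : F[X]) (hD0 : D.eval 0 ≠ 0)
    (hD1 : D.eval 1 ≠ 0) (a b : RatFunc F) (ha : a ≠ 0) (hb : b ≠ 0)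
    (hfin : ∀ v : HeightOneSpectrum F[X],
      HasPt (v.adicCompletion (RatFunc F)) (algebraMap F[X] (RatFunc F) D) a b)
    (hinf : HasPt (RatFunc.CompletionAtInfty F) (algebraMap F[X] (RatFunc F) D) a b) :
    ∃ (ga gb : F[X]) (s r : RatFunc F), s ≠ 0 ∧ r ≠ 0 ∧
      a = algebraMap F[X] (RatFunc F) ga * s ^ 2 ∧ b = algebraMap F[X] (RatFunc F) gb * r ^ 2 ∧
      Data D ga gb := by
  obtain ⟨ga, hga, s, hs, has⟩ := exists_sqfree_rep a ha
  obtain ⟨gb, hgb, r, hr, hbr⟩ := exists_sqfree_rep b hb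
  have hD : D ≠ 0 := by rintro rfl; simp at hD0
  have hX : (algebraMap F[X] (RatFunc F) X) = RatFunc.X := RatFunc.algebraMap_X
  have hga0 : ga ≠ 0 := hga.ne_zero
  have hgb0 : gb ≠ 0 := hgb.ne_zero
  refine ⟨ga, gb, s, r, hs, hr, has, hbr, ?_⟩
  -- congruences in completions
  have hcongrA : ∀ {M : Type _} [Field M] [Algebra (RatFunc F) M] (c : RatFunc F), 
      algebraMap (RatFunc F) M (a * c) = algebraMap (RatFunc F) M
        (algebraMap F[X] (RatFunc F) ga * c) * (algebraMap (RatFunc F) M s) ^ 2 := by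
    intro M _ _ c
    rw [has, ← map_pow, ← map_mul]; congr 1; ring
  have hcongrB : ∀ {M : Type _} [Field M] [Algebra (RatFunc F) M] (c : RatFunc F), 
      algebraMap (RatFunc F) M (b * c) = algebraMap (RatFunc F) M
        (algebraMap F[X] (RatFunc F) gb * c) * (algebraMap (RatFunc F) M r) ^ 2 := by
    intro M _ _ c
    rw [hbr, ← map_pow, ← map_mul]; congr 1; ring
  have hsM : ∀ {M : Type _} [Field M] [Algebra (RatFunc F) M], algebraMap (RatFunc F) M s ≠ 0 := by
    intro M _ _; rw [Ne, map_eq_zero]; exact hs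
  have hrM : ∀ {M : Type _} [Field M] [Algebra (RatFunc F) M], algebraMap (RatFunc F) M r ≠ 0 := by
    intro M _ _; rw [Ne, map_eq_zero]; exact hr
  -- the place `t = 0`
  set v0 : HeightOneSpectrum F[X] := place X irreducible_X with hv0
  have hv0' : v0.asIdeal = Ideal.span {X} := rfl
  have hX1irr : Irreducible (X - C (1 : F)) := irreducible_X_sub_C 1
  set v1 : HeightOneSpectrum F[X] := place (X - C 1) hX1irr with hv1
  have hv1' : v1.asIdeal = Ideal.span {X - C 1} := rfl
  have hX1 : (X : F[X]) - C 1 = X - 1 := by simp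
  have hD0v : D ∉ v0.asIdeal := by
    rw [hv0', Ideal.mem_span_singleton, X_dvd_iff, coeff_zero_eq_eval_zero]; exact hD0
  have hD1v : D ∉ v1.asIdeal := by
    rw [hv1', Ideal.mem_span_singleton, dvd_iff_isRoot]; exact hD1
  have ht1 : ∀ {M : Type _} [Field M] [Algebra (RatFunc F) M],
      algebraMap (RatFunc F) M RatFunc.X - 1 = algebraMap (RatFunc F) M
        (algebraMap F[X] (RatFunc F) (X - 1)) := by
    intro M _ _
    rw [map_sub, map_sub, hX, map_one, map_one]
  -- conclusion at `v0`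
  have hzero : (Ev (Valued.v : Valuation (v0.adicCompletion (RatFunc F)) ℤᵐ⁰)
        (algebraMap (RatFunc F) (v0.adicCompletion (RatFunc F)) a) ∧
      Cl (Valued.v : Valuation (v0.adicCompletion (RatFunc F)) ℤᵐ⁰)
        (algebraMap (RatFunc F) (v0.adicCompletion (RatFunc F)) b)) ∨
      (Ev (Valued.v : Valuation (v0.adicCompletion (RatFunc F)) ℤᵐ⁰)
        (algebraMap (RatFunc F) (v0.adicCompletion (RatFunc F)) (a * RatFunc.X)) ∧
      Cl (Valued.v : Valuation (v0.adicCompletion (RatFunc F)) ℤᵐ⁰)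
        (algebraMap (RatFunc F) (v0.adicCompletion (RatFunc F))
          (-(b * algebraMap F[X] (RatFunc F) D)))) := by
    rcases hasPt_cases (Valued.v : Valuation (v0.adicCompletion (RatFunc F)) ℤᵐ⁰) ha hb
      (hfin v0) with ⟨h1, h2⟩ | h1
    · exact Or.inl ⟨h1.ev, h2⟩
    · have h3 := pt_zero (v := (Valued.v : Valuation (v0.adicCompletion (RatFunc F)) ℤᵐ⁰))
        ((val_A_eq_one_iff v0 D).2 hD0v)
        (by rw [← hX]; exact val_gen v0 X X_ne_zero hv0') h1
      simpa only [map_neg, map_mul] using h3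
  have hone : (Cl (Valued.v : Valuation (v1.adicCompletion (RatFunc F)) ℤᵐ⁰)
        (algebraMap (RatFunc F) (v1.adicCompletion (RatFunc F)) a) ∧
      Ev (Valued.v : Valuation (v1.adicCompletion (RatFunc F)) ℤᵐ⁰)
        (algebraMap (RatFunc F) (v1.adicCompletion (RatFunc F)) b)) ∨
      (Cl (Valued.v : Valuation (v1.adicCompletion (RatFunc F)) ℤᵐ⁰)
        (algebraMap (RatFunc F) (v1.adicCompletion (RatFunc F))
          (a * algebraMap F[X] (RatFunc F) D)) ∧
      Ev (Valued.v : Valuation (v1.adicCompletion (RatFunc F)) ℤᵐ⁰)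
        (algebraMap (RatFunc F) (v1.adicCompletion (RatFunc F))
          (b * algebraMap F[X] (RatFunc F) (X - 1)))) := by
    rcases hasPt_cases (Valued.v : Valuation (v1.adicCompletion (RatFunc F)) ℤᵐ⁰) ha hb
      (hfin v1) with ⟨h1, h2⟩ | h1
    · exact Or.inl ⟨h1, h2.ev⟩
    · have h3 := pt_one (v := (Valued.v : Valuation (v1.adicCompletion (RatFunc F)) ℤᵐ⁰))
        ((val_A_eq_one_iff v1 D).2 hD1v)
        (by rw [ht1, ← hX1]; exact val_gen v1 (X - C 1) (X_sub_C_ne_zero 1) hv1') h1
      rw [ht1] at h3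
      simpa only [map_mul] using h3
  have hgood : ∀ v : HeightOneSpectrum F[X], X ∉ v.asIdeal → X - 1 ∉ v.asIdeal →
      D ∉ v.asIdeal → Ev (Valued.v : Valuation (v.adicCompletion (RatFunc F)) ℤᵐ⁰)
        (algebraMap (RatFunc F) (v.adicCompletion (RatFunc F)) a) ∧
      Ev (Valued.v : Valuation (v.adicCompletion (RatFunc F)) ℤᵐ⁰)
        (algebraMap (RatFunc F) (v.adicCompletion (RatFunc F)) b) := by
    intro v h1 h2 h3
    rcases hasPt_cases (Valued.v : Valuation (v.adicCompletion (RatFunc F)) ℤᵐ⁰) ha hb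
      (hfin v) with ⟨h4, h5⟩ | h4
    · exact ⟨h4.ev, h5.ev⟩
    · exact pt_good ((val_A_eq_one_iff v D).2 h3)
        (by rw [← hX]; exact (val_A_eq_one_iff v X).2 h1)
        (by rw [ht1]; exact (val_A_eq_one_iff v (X - 1)).2 h2) h4
  -- primes containing `X`, resp. `X - 1`
  have hmemX : ∀ v : HeightOneSpectrum F[X], X ∈ v.asIdeal → v = v0 := by
    intro v hv
    apply HeightOneSpectrum.ext
    have h1 : v0.asIdeal ≤ v.asIdeal := by
      rw [hv0', Ideal.span_singleton_le_iff_mem]; exact hv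
    exact (v0.isMaximal.eq_of_le v.isPrime.ne_top h1).symm
  have hmemX1 : ∀ v : HeightOneSpectrum F[X], X - 1 ∈ v.asIdeal → v = v1 := by
    intro v hv
    apply HeightOneSpectrum.ext
    have h1 : v1.asIdeal ≤ v.asIdeal := by
      rw [hv1', Ideal.span_singleton_le_iff_mem, hX1]; exact hv
    exact (v1.isMaximal.eq_of_le v.isPrime.ne_top h1).symm
  have hdvda : ga ∣ X * D := by
    apply rep_dvd a ga hga s hs has (X * D) (mul_ne_zero X_ne_zero hD)
    intro v hv
    have h1 : X ∉ v.asIdeal := fun h => hv (Ideal.mul_mem_right _ _ h)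
    have h2 : D ∉ v.asIdeal := fun h => hv (Ideal.mul_mem_left _ _ h)
    by_cases h3 : X - 1 ∈ v.asIdeal
    · rw [hmemX1 v h3]
      rcases hone with ⟨h4, _⟩ | ⟨h4, _⟩
      · exact h4.ev
      · rw [mul_comm, map_mul] at h4
        exact (Ev.of_val ((val_A_eq_one_iff v1 D).2 hD1v)).of_mul h4.ev
    · exact (hgood v h1 h3 h2).1
  have hdvdb : gb ∣ (X - 1) * D := by
    apply rep_dvd b gb hgb r hr hbr ((X - 1) * D)
      (mul_ne_zero (by rw [← hX1]; exact X_sub_C_ne_zero 1) hD)
    intro v hv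
    have h1 : X - 1 ∉ v.asIdeal := fun h => hv (Ideal.mul_mem_right _ _ h)
    have h2 : D ∉ v.asIdeal := fun h => hv (Ideal.mul_mem_left _ _ h)
    by_cases h3 : X ∈ v.asIdeal
    · rw [hmemX v h3]
      rcases hzero with ⟨_, h4⟩ | ⟨_, h4⟩
      · exact h4.ev
      · have h5 : algebraMap (RatFunc F) (v0.adicCompletion (RatFunc F))
          (-(b * algebraMap F[X] (RatFunc F) D)) =
          algebraMap (RatFunc F) (v0.adicCompletion (RatFunc F)) (algebraMap F[X] (RatFunc F) (-D)) *
          algebraMap (RatFunc F) (v0.adicCompletion (RatFunc F)) b := by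
          rw [← map_mul]; congr 1; rw [map_neg]; ring
        rw [h5] at h4
        refine (Ev.of_val ((val_A_eq_one_iff v0 (-D)).2 ?_)).of_mul h4.ev
        rw [neg_mem_iff]; exact hD0v
    · exact (hgood v h3 h1 h2).2
  have hgb0' : gb.eval 0 ≠ 0 := by
    intro h0
    have h1 : (X : F[X]) ∣ (X - 1) * D := (X_dvd_iff.2 (by
      rw [coeff_zero_eq_eval_zero]; exact h0)).trans hdvdb
    rw [X_dvd_iff, coeff_zero_eq_eval_zero, eval_mul] at h1
    simp [hD0] at h1
  have hga1 : ga.eval 1 ≠ 0 := by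
    intro h0
    have h1 : (X : F[X]) - C 1 ∣ X * D := (dvd_iff_isRoot.2 h0).trans hdvda
    rw [dvd_iff_isRoot, IsRoot.def, eval_mul] at h1
    simp [hD1] at h1
  have hinf' := hasPt_cases (Valued.v : Valuation (RatFunc.CompletionAtInfty F) ℤᵐ⁰) ha hb hinf
  have htinf : (Valued.v (algebraMap (RatFunc F) (RatFunc.CompletionAtInfty F) RatFunc.X) :
      ℤᵐ⁰) = exp (1 : ℤ) := by
    rw [← hX, val_inf_poly X_ne_zero, natDegree_X]; rfl
  have hDinf := val_inf_poly hD
  refine ⟨hga, hgb, hdvda, hdvdb, ?_, ?_, ?_, ?_⟩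
  · -- zero
    rcases hzero with ⟨h1, h2⟩ | ⟨h1, h2⟩
    · left
      have h3 := (Ev.congr hsM (by simpa using hcongrA (M := v0.adicCompletion (RatFunc F)) 1)).1 h1
      have h4 := (Cl.congr hrM (by simpa using hcongrB (M := v0.adicCompletion (RatFunc F)) 1)).1 h2
      refine ⟨(ev_iff_not_dvd v0 X X_ne_zero hv0' ga hga).1 h3, ?_⟩
      exact isSquare_eval_of_Cl 0 gb hgb0' v0 (by rw [hv0', C_0, sub_zero]) h4
    · right
      have h3 := (Ev.congr hsM (hcongrA (M := v0.adicCompletion (RatFunc F)) RatFunc.X)).1 h1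
      constructor
      · by_contra hnd
        have h4 := (ev_iff_not_dvd v0 X X_ne_zero hv0' ga hga).2 hnd
        rw [map_mul] at h3
        have h5 := h4.of_mul h3
        have h6 := h5.even (by rw [← hX]; exact val_gen v0 X X_ne_zero hv0')
        revert h6; decide
      · have h4 : Cl (Valued.v : Valuation (v0.adicCompletion (RatFunc F)) ℤᵐ⁰)
          (algebraMap (RatFunc F) (v0.adicCompletion (RatFunc F))
            (algebraMap F[X] (RatFunc F) (-(gb * D)))) := by
          refine (Cl.congr (s := algebraMap (RatFunc F) (v0.adicCompletion (RatFunc F)) r) hrM ?_).1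
            h2
          have := hcongrB (M := v0.adicCompletion (RatFunc F)) (-algebraMap F[X] (RatFunc F) D)
          rw [mul_neg] at this
          rw [this]; congr 2
          rw [map_neg, map_mul, mul_neg]
        have h5 := isSquare_eval_of_Cl 0 (-(gb * D)) (by
          rw [eval_neg, eval_mul]; exact neg_ne_zero.2 (mul_ne_zero hgb0' hD0)) v0
          (by rw [hv0', C_0, sub_zero]) h4
        rwa [eval_neg, eval_mul] at h5
  · -- one
    rcases hone with ⟨h1, h2⟩ | ⟨h1, h2⟩
    · left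
      have h3 := (Cl.congr hsM (by simpa using hcongrA (M := v1.adicCompletion (RatFunc F)) 1)).1 h1
      have h4 := (Ev.congr hrM (by simpa using hcongrB (M := v1.adicCompletion (RatFunc F)) 1)).1 h2
      refine ⟨?_, isSquare_eval_of_Cl 1 ga hga1 v1 hv1' h3⟩
      rw [← hX1]
      exact (ev_iff_not_dvd v1 (X - C 1) (X_sub_C_ne_zero 1) hv1' gb hgb).1 h4
    · right
      have h3 := (Ev.congr hrM (hcongrB (M := v1.adicCompletion (RatFunc F))
        (algebraMap F[X] (RatFunc F) (X - 1)))).1 h2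
      constructor
      · by_contra hnd
        rw [← hX1] at hnd
        have h4 := (ev_iff_not_dvd v1 (X - C 1) (X_sub_C_ne_zero 1) hv1' gb hgb).2 hnd
        rw [map_mul] at h3
        have h5 := h4.of_mul h3
        have h6 := h5.even (by rw [← hX1]; exact val_gen v1 (X - C 1) (X_sub_C_ne_zero 1) hv1')
        revert h6; decide
      · have h4 : Cl (Valued.v : Valuation (v1.adicCompletion (RatFunc F)) ℤᵐ⁰)
          (algebraMap (RatFunc F) (v1.adicCompletion (RatFunc F))
            (algebraMap F[X] (RatFunc F) (ga * D))) := by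
          refine (Cl.congr (s := algebraMap (RatFunc F) (v1.adicCompletion (RatFunc F)) s) hsM ?_).1
            h1
          rw [hcongrA]; congr 2
          rw [map_mul]
        have h5 := isSquare_eval_of_Cl 1 (ga * D) (by
          rw [eval_mul]; exact mul_ne_zero hga1 hD1) v1 hv1' h4
        rwa [eval_mul] at h5
  · -- infinity, odd degree
    intro hodd
    rcases hinf' with ⟨h1, h2⟩ | h1
    · left
      have h3 := (Cl.congr hsM (by simpa using hcongrA (M := RatFunc.CompletionAtInfty F) 1)).1 h1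
      have h4 := (Cl.congr hrM (by simpa using hcongrB (M := RatFunc.CompletionAtInfty F) 1)).1 h2
      obtain ⟨h5, h6⟩ := inf_of_Cl hga0 h3
      obtain ⟨h7, h8⟩ := inf_of_Cl hgb0 h4
      exact ⟨h5, h7, h6.mul h8⟩
    · have h2 := pt_inf_odd (n := (D.natDegree : ℤ)) (by exact_mod_cast hodd) hDinf htinf h1
      rcases h2 with ⟨h3, h4⟩ | ⟨h3, h4⟩
      · left
        have h5 := inf_ev hga0
          ((Ev.congr hsM (by simpa using hcongrA (M := RatFunc.CompletionAtInfty F) 1)).1 h3)
        have h6 : Cl (Valued.v : Valuation (RatFunc.CompletionAtInfty F) ℤᵐ⁰)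
          (algebraMap (RatFunc F) (RatFunc.CompletionAtInfty F)
            (algebraMap F[X] (RatFunc F) (ga * gb))) := by
          refine (Cl.congr (s := algebraMap (RatFunc F) (RatFunc.CompletionAtInfty F) (s * r))
            (by rw [map_mul]; exact mul_ne_zero hsM hrM) ?_).1 h4
          rw [← map_mul, ← map_pow, ← map_mul]; congr 1
          rw [has, hbr, map_mul]; ring
        obtain ⟨h7, h8⟩ := inf_of_Cl (mul_ne_zero hga0 hgb0) h6
        rw [natDegree_mul hga0 hgb0, Nat.even_add] at h7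
        rw [leadingCoeff_mul] at h8
        exact ⟨h5, h7.1 h5, h8⟩
      · right
        have h5 : Even (ga * X).natDegree := by
          apply inf_ev (mul_ne_zero hga0 X_ne_zero)
          refine (Ev.congr (s := algebraMap (RatFunc F) (RatFunc.CompletionAtInfty F) s) hsM ?_).1
            h3
          rw [← map_mul, hcongrA]; congr 2
          rw [map_mul, hX]
        have h6 : Cl (Valued.v : Valuation (RatFunc.CompletionAtInfty F) ℤᵐ⁰)
          (algebraMap (RatFunc F) (RatFunc.CompletionAtInfty F)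
            (algebraMap F[X] (RatFunc F) (-(ga * gb * (X * D))))) := by
          refine (Cl.congr (s := algebraMap (RatFunc F) (RatFunc.CompletionAtInfty F) (s * r))
            (by rw [map_mul]; exact mul_ne_zero hsM hrM) ?_).1 h4
          rw [← map_mul, ← map_mul, ← map_mul, ← map_pow, ← map_neg, ← map_mul]; congr 1
          rw [has, hbr, map_neg, map_mul, map_mul, map_mul, hX]; ring
        have hne : ga * gb * (X * D) ≠ 0 :=
          mul_ne_zero (mul_ne_zero hga0 hgb0) (mul_ne_zero X_ne_zero hD)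
        obtain ⟨h7, h8⟩ := inf_of_Cl (neg_ne_zero.2 hne) h6
        rw [natDegree_neg, natDegree_mul (mul_ne_zero hga0 hgb0) (mul_ne_zero X_ne_zero hD),
          natDegree_mul hga0 hgb0, natDegree_mul X_ne_zero hD, natDegree_X] at h7
        rw [natDegree_mul hga0 X_ne_zero, natDegree_X] at h5
        rw [leadingCoeff_neg, leadingCoeff_mul, leadingCoeff_mul, leadingCoeff_mul,
          leadingCoeff_X, one_mul] at h8
        refine ⟨?_, ?_, h8⟩
        · rw [← Nat.not_even_iff_odd]; rw [Nat.even_add_one] at h5; exact h5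
        · rw [← Nat.not_even_iff_odd]; rw [Nat.even_add_one] at h5
          rw [← Nat.not_even_iff_odd] at hodd
          rw [Nat.even_add, Nat.even_add, Nat.even_add] at h7
          have h1' : ¬ Even 1 := by decide
          tauto
  · -- infinity, even degree
    intro hev
    have hcla : ∀ (p : F[X]), Cl (Valued.v : Valuation (RatFunc.CompletionAtInfty F) ℤᵐ⁰)
        (algebraMap (RatFunc F) (RatFunc.CompletionAtInfty F) (a * algebraMap F[X] (RatFunc F) p)) →
        Cl (Valued.v : Valuation (RatFunc.CompletionAtInfty F) ℤᵐ⁰)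
        (algebraMap (RatFunc F) (RatFunc.CompletionAtInfty F)
          (algebraMap F[X] (RatFunc F) (ga * p))) := by
      intro p h
      refine (Cl.congr (s := algebraMap (RatFunc F) (RatFunc.CompletionAtInfty F) s) hsM ?_).1 h
      rw [hcongrA]; congr 2
      rw [map_mul]
    have hclb : ∀ (p : F[X]), Cl (Valued.v : Valuation (RatFunc.CompletionAtInfty F) ℤᵐ⁰)
        (algebraMap (RatFunc F) (RatFunc.CompletionAtInfty F) (b * algebraMap F[X] (RatFunc F) p)) →
        Cl (Valued.v : Valuation (RatFunc.CompletionAtInfty F) ℤᵐ⁰)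
        (algebraMap (RatFunc F) (RatFunc.CompletionAtInfty F)
          (algebraMap F[X] (RatFunc F) (gb * p))) := by
      intro p h
      refine (Cl.congr (s := algebraMap (RatFunc F) (RatFunc.CompletionAtInfty F) r) hrM ?_).1 h
      rw [hcongrB]; congr 2
      rw [map_mul]
    have hev1 : ∀ p : F[X], p ≠ 0 → ∀ g : F[X], g ≠ 0 →
        Cl (Valued.v : Valuation (RatFunc.CompletionAtInfty F) ℤᵐ⁰)
        (algebraMap (RatFunc F) (RatFunc.CompletionAtInfty F)
          (algebraMap F[X] (RatFunc F) (g * p))) → (Even g.natDegree ↔ Even p.natDegree) ∧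
          IsSquare (g.leadingCoeff * p.leadingCoeff) := by
      intro p hp g hg h
      obtain ⟨h7, h8⟩ := inf_of_Cl (mul_ne_zero hg hp) h
      rw [natDegree_mul hg hp, Nat.even_add] at h7
      rw [leadingCoeff_mul] at h8
      exact ⟨h7, h8⟩
    have hnX : ¬ Even (X : F[X]).natDegree := by rw [natDegree_X]; decide
    have hnXD : ¬ Even (X * D : F[X]).natDegree := by
      rw [natDegree_mul X_ne_zero hD, natDegree_X, add_comm, Nat.even_add_one]
      simpa using hev
    rcases hinf' with ⟨h1, h2⟩ | h1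
    · left
      have h3 := (Cl.congr hsM (by simpa using hcongrA (M := RatFunc.CompletionAtInfty F) 1)).1 h1
      have h4 := (Cl.congr hrM (by simpa using hcongrB (M := RatFunc.CompletionAtInfty F) 1)).1 h2
      obtain ⟨h5, h6⟩ := inf_of_Cl hga0 h3
      obtain ⟨h7, h8⟩ := inf_of_Cl hgb0 h4
      exact ⟨h5, h7, h6, h8⟩
    · have h2 := pt_inf_even (n := (D.natDegree : ℤ)) (by exact_mod_cast hev) hDinf htinf h1
      rcases h2 with ⟨h3, h4⟩ | ⟨h3, h4⟩ | ⟨h3, h4⟩ | ⟨h3, h4⟩
      · left
        have h3 := (Cl.congr hsM (by simpa using hcongrA (M := RatFunc.CompletionAtInfty F) 1)).1 h3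
        have h4 := (Cl.congr hrM (by simpa using hcongrB (M := RatFunc.CompletionAtInfty F) 1)).1 h4
        obtain ⟨h5, h6⟩ := inf_of_Cl hga0 h3
        obtain ⟨h7, h8⟩ := inf_of_Cl hgb0 h4
        exact ⟨h5, h7, h6, h8⟩
      · right; left
        rw [← hX, ← map_mul] at h3
        rw [← map_mul, ← map_neg, ← mul_neg, ← map_neg] at h4
        obtain ⟨h5, h6⟩ := hev1 X X_ne_zero ga hga0 (hcla X h3)
        obtain ⟨h7, h8⟩ := hev1 (-D) (neg_ne_zero.2 hD) gb hgb0 (hclb (-D) h4)
        rw [leadingCoeff_X, mul_one] at h6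
        rw [leadingCoeff_neg, mul_neg] at h8
        rw [natDegree_neg] at h7
        refine ⟨?_, h7.2 hev, h6, h8⟩
        rw [← Nat.not_even_iff_odd]; tauto
      · right; right; left
        rw [← map_mul] at h3
        rw [← hX, ← map_mul, ← map_neg, ← mul_neg, ← map_neg] at h4
        obtain ⟨h5, h6⟩ := hev1 D hD ga hga0 (hcla D h3)
        obtain ⟨h7, h8⟩ := hev1 (-X) (neg_ne_zero.2 X_ne_zero) gb hgb0 (hclb (-X) h4)
        rw [leadingCoeff_neg, mul_neg, leadingCoeff_X, mul_one] at h8
        rw [natDegree_neg] at h7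
        refine ⟨h5.2 hev, ?_, h6, h8⟩
        rw [← Nat.not_even_iff_odd]; tauto
      · right; right; right
        rw [← hX, ← map_mul, ← map_mul, ← map_mul] at h3 h4
        obtain ⟨h5, h6⟩ := hev1 (X * D) (mul_ne_zero X_ne_zero hD) ga hga0 (hcla (X * D) h3)
        obtain ⟨h7, h8⟩ := hev1 (X * D) (mul_ne_zero X_ne_zero hD) gb hgb0 (hclb (X * D) h4)
        rw [leadingCoeff_mul, leadingCoeff_X, one_mul] at h6 h8
        refine ⟨?_, ?_, h6, h8⟩
        · rw [← Nat.not_even_iff_odd]; tauto
        · rw [← Nat.not_even_iff_odd]; tauto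

end

end Pool.Agent.H94.LT
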