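import Pool.Agent.H94.LT.Data

/-!
The case `D = ℓ P`, `P` irreducible.
-/

namespace Pool.Agent.H94.LT

open Polynomial

section

variable {F : Type*} [Field F]

theorem dvd_irr {p g : F[X]} (hp : Irreducible p) (h : g ∣ p) :
    (∃ c : F, c ≠ 0 ∧ g = C c) ∨ (∃ c : F, c ≠ 0 ∧ g = C c * p) := by
  obtain ⟨k, hk⟩ := h
  rcases hp.isUnit_or_isUnit hk with hu | hu
  · left
    rw [Polynomial.isUnit_iff] at hu
    obtain ⟨c, hc, rfl⟩ := hu
    exact ⟨c, hc.ne_zero, rfl⟩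
  · right
    rw [Polynomial.isUnit_iff] at hu
    obtain ⟨c, hc, rfl⟩ := hu
    have hc0 : c ≠ 0 := hc.ne_zero
    refine ⟨c⁻¹, inv_ne_zero hc0, ?_⟩
    rw [hk, mul_comm g, ← mul_assoc, ← C_mul, inv_mul_cancel₀ hc0, C_1, one_mul]

/-- the four possible shapes of a divisor of `p * (ℓ q)` -/
theorem dvd_shapes {p q g : F[X]} (hp : Irreducible p) (hq : Irreducible q) {l : F} (hl : l ≠ 0)
    (h : g ∣ p * (C l * q)) : ∃ c : F, c ≠ 0 ∧
      (g = C c ∨ g = C c * p ∨ g = C c * q ∨ g = C c * (p * q)) := by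
  obtain ⟨g1, g2, h1, h2, rfl⟩ := exists_dvd_and_dvd_of_dvd_mul h
  have hlu : IsUnit (C l : F[X]) := isUnit_C.2 (Ne.isUnit hl)
  have h2' : g2 ∣ q := (hlu.dvd_mul_left).1 h2
  rcases dvd_irr hp h1 with ⟨c, hc, rfl⟩ | ⟨c, hc, rfl⟩ <;>
    rcases dvd_irr hq h2' with ⟨d, hd, rfl⟩ | ⟨d, hd, rfl⟩
  · exact ⟨c * d, mul_ne_zero hc hd, Or.inl (by rw [C_mul])⟩
  · exact ⟨c * d, mul_ne_zero hc hd, Or.inr (Or.inr (Or.inl (by rw [C_mul]; ring)))⟩
  · exact ⟨c * d, mul_ne_zero hc hd, Or.inr (Or.inl (by rw [C_mul]; ring))⟩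
  · exact ⟨c * d, mul_ne_zero hc hd, Or.inr (Or.inr (Or.inr (by rw [C_mul]; ring)))⟩

/-- the four classes of the `2`-torsion, at the level of polynomials -/
def TorsionClass (D ga gb : F[X]) : Prop :=
  (∃ c d : F, c ≠ 0 ∧ d ≠ 0 ∧ ga = C (c ^ 2) ∧ gb = C (d ^ 2)) ∨
  (∃ c d : F, c ≠ 0 ∧ d ≠ 0 ∧ ga * C (c ^ 2) = X ∧ gb * C (d ^ 2) = -D) ∨
  (∃ c d : F, c ≠ 0 ∧ d ≠ 0 ∧ ga * C (c ^ 2) = D ∧ gb * C (d ^ 2) = 1 - X) ∨
  (∃ c d : F, c ≠ 0 ∧ d ≠ 0 ∧ ga * C (c ^ 2) = X * D ∧ gb * C (d ^ 2) = (X - 1) * D)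

/-- parity bookkeeping for square classes -/
structure SqPar (q : F → ℕ) : Prop where
  sq : ∀ x, IsSquare x ↔ q x % 2 = 0
  mul : ∀ x y, x ≠ 0 → y ≠ 0 → q (x * y) % 2 = (q x + q y) % 2

theorem exists_sqPar [Finite F] (h2 : (2 : F) ≠ 0) : ∃ q : F → ℕ, SqPar q := by
  classical
  refine ⟨fun x => if IsSquare x then 0 else 1, ⟨fun x => ?_, fun x y hx hy => ?_⟩⟩
  · by_cases h : IsSquare x <;> simp [h]
  · have := isSquare_mul_iff h2 hx hy
    by_cases h3 : IsSquare x <;> by_cases h4 : IsSquare y <;> simp [h3, h4] at this ⊢ <;>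
      simp [this]

theorem SqPar.neg {q : F → ℕ} (h : SqPar q) {x : F} (hx : x ≠ 0) :
    q (-x) % 2 = (q (-1) + q x) % 2 := by
  rw [← h.mul (-1) x (neg_ne_zero.2 one_ne_zero) hx, neg_one_mul]

theorem SqPar.neg2 {q : F → ℕ} (h : SqPar q) {x y : F} (hx : x ≠ 0) (hy : y ≠ 0) :
    q (-(x * y)) % 2 = (q (-1) + q x + q y) % 2 := by
  have h1 := h.neg (mul_ne_zero hx hy)
  have h2 := h.mul x y hx hy
  omega

theorem SqPar.mul3 {q : F → ℕ} (h : SqPar q) {x y z : F} (hx : x ≠ 0) (hy : y ≠ 0)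
    (hz : z ≠ 0) : q (x * (y * z)) % 2 = (q x + q y + q z) % 2 := by
  have h1 := h.mul x (y * z) hx (mul_ne_zero hy hz)
  have h2 := h.mul y z hy hz
  omega

theorem SqPar.neg3 {q : F → ℕ} (h : SqPar q) {x y z : F} (hx : x ≠ 0) (hy : y ≠ 0)
    (hz : z ≠ 0) : q (-(x * (y * z))) % 2 = (q (-1) + q x + q y + q z) % 2 := by
  have h1 := h.neg2 hx (mul_ne_zero hy hz)
  have h2 := h.mul y z hy hz
  omega

theorem SqPar.neg3' {q : F → ℕ} (h : SqPar q) {x y z : F} (hx : x ≠ 0) (hy : y ≠ 0)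
    (hz : z ≠ 0) : q (-(x * y * z)) % 2 = (q (-1) + q x + q y + q z) % 2 := by
  rw [mul_assoc]; exact h.neg3 hx hy hz

theorem SqPar.four {q : F → ℕ} (h : SqPar q) {x y z : F} (hx : x ≠ 0) (hy : y ≠ 0)
    (hz : z ≠ 0) : q (x * y * (z * y)) % 2 = (q x + q z) % 2 := by
  have h1 := h.mul (x * y) (z * y) (mul_ne_zero hx hy) (mul_ne_zero hz hy)
  have h2 := h.mul x y hx hy
  have h3 := h.mul z y hz hy
  omega

theorem SqPar.negfour {q : F → ℕ} (h : SqPar q) {x y z : F} (hx : x ≠ 0) (hy : y ≠ 0)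
    (hz : z ≠ 0) : q (-(x * y * (z * y))) % 2 = (q (-1) + q x + q z) % 2 := by
  have h1 := h.neg (mul_ne_zero (mul_ne_zero hx hy) (mul_ne_zero hz hy))
  have h2 := h.four hx hy hz
  omega

theorem SqPar.negneg3 {q : F → ℕ} (h : SqPar q) {x y z : F} (hx : x ≠ 0) (hy : y ≠ 0)
    (hz : z ≠ 0) : q (-(-x * (y * z))) % 2 = (q x + q y + q z) % 2 := by
  have : -(-x * (y * z)) = x * (y * z) := by ring
  rw [this]; exact h.mul3 hx hy hz

theorem SqPar.negnegfour {q : F → ℕ} (h : SqPar q) {x y z : F} (hx : x ≠ 0) (hy : y ≠ 0)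
    (hz : z ≠ 0) : q (-(-(x * y) * (z * y))) % 2 = (q x + q z) % 2 := by
  have : -(-(x * y) * (z * y)) = x * y * (z * y) := by ring
  rw [this]; exact h.four hx hy hz

theorem torsion_of_data [Finite F] (h2 : (2 : F) ≠ 0) (P : F[X]) (hP : Irreducible P)
    (hm : P.Monic) (hX : P ≠ X) (hX1 : P ≠ X - 1) (l : F) (hl : l ≠ 0)
    (hyp : (Odd P.natDegree ∧ ¬ IsSquare (-(l * P.eval 0 * P.eval 1))) ∨
      (Even P.natDegree ∧ ¬ IsSquare (P.eval 0) ∧ ¬ IsSquare (P.eval 1)))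
    (ga gb : F[X]) (hd : Data (C l * P) ga gb) : TorsionClass (C l * P) ga gb := by
  classical
  have hX1' : (X : F[X]) - C 1 = X - 1 := by simp
  have hirr1 : Irreducible ((X : F[X]) - 1) := by rw [← hX1']; exact irreducible_X_sub_C 1
  have hP0 : P.eval 0 ≠ 0 := by
    intro h0
    have h1 : (X : F[X]) ∣ P := by rw [X_dvd_iff, coeff_zero_eq_eval_zero]; exact h0
    have h3 := (irreducible_X (R := F)).associated_of_dvd hP h1
    exact hX (eq_of_monic_of_associated hm monic_X h3.symm)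
  have hP1 : P.eval 1 ≠ 0 := by
    intro h0
    have h1 : (X : F[X]) - C 1 ∣ P := by rw [dvd_iff_isRoot]; exact h0
    have h3 := (irreducible_X_sub_C (1 : F)).associated_of_dvd hP h1
    apply hX1
    rw [← hX1']
    exact eq_of_monic_of_associated hm (monic_X_sub_C 1) h3.symm
  have hXP : ¬ (X : F[X]) ∣ P := by
    rw [X_dvd_iff, coeff_zero_eq_eval_zero]; exact hP0
  have hX1P : ¬ ((X : F[X]) - 1) ∣ P := by
    rw [← hX1', dvd_iff_isRoot]; exact hP1
  obtain ⟨q, hq⟩ := exists_sqPar h2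
  have hq0 := hq.sq
  have hPn0 : P ≠ 0 := hP.ne_zero
  obtain ⟨al, hal, ha⟩ := dvd_shapes irreducible_X hP hl hd.dvda
  obtain ⟨be, hbe, hb⟩ := dvd_shapes hirr1 hP hl hd.dvdb
  have hlP : (C l * P).leadingCoeff = l := by
    rw [leadingCoeff_mul, leadingCoeff_C, hm.leadingCoeff, mul_one]
  have hdlP : (C l * P).natDegree = P.natDegree := natDegree_C_mul hl
  have hzero := hd.zero
  have hone := hd.one
  have hio := hd.infOdd
  have hie := hd.infEven
  rw [hlP, hdlP] at hio hie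
  simp only [eval_mul, eval_C] at hzero hone
  have hmX1 : ((X : F[X]) - 1).Monic := by rw [← hX1']; exact monic_X_sub_C 1
  -- divisibility facts
  have nX : ∀ c : F, c ≠ 0 → ¬ (X : F[X]) ∣ C c := by
    intro c hc h
    rw [X_dvd_iff, coeff_C_zero] at h; exact hc h
  have nX1 : ∀ c : F, c ≠ 0 → ¬ ((X : F[X]) - 1) ∣ C c := by
    intro c hc h
    rw [← hX1', dvd_iff_isRoot, IsRoot.def, eval_C] at h; exact hc h
  have nXP : ∀ c : F, c ≠ 0 → ¬ (X : F[X]) ∣ C c * P := by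
    intro c hc h
    rcases (irreducible_X (R := F)).prime.dvd_or_dvd h with h | h
    · exact nX c hc h
    · exact hXP h
  have nX1P : ∀ c : F, c ≠ 0 → ¬ ((X : F[X]) - 1) ∣ C c * P := by
    intro c hc h
    rcases hirr1.prime.dvd_or_dvd h with h | h
    · exact nX1 c hc h
    · exact hX1P h
  have dX : ∀ c : F, (X : F[X]) ∣ C c * X := fun c => Dvd.intro_left _ rfl
  have dX1 : ∀ c : F, ((X : F[X]) - 1) ∣ C c * (X - 1) := fun c => Dvd.intro_left _ rfl
  have dXP : ∀ c : F, (X : F[X]) ∣ C c * (X * P) := fun c => ⟨C c * P, by ring⟩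
  have dX1P : ∀ c : F, ((X : F[X]) - 1) ∣ C c * ((X - 1) * P) := fun c => ⟨C c * P, by ring⟩
  -- degrees and leading coefficients
  have e1 : ∀ c : F, c ≠ 0 → (C c * X : F[X]).natDegree = 1 := fun c hc => by
    rw [natDegree_C_mul hc, natDegree_X]
  have e2 : ∀ c : F, c ≠ 0 → (C c * (X - 1) : F[X]).natDegree = 1 := fun c hc => by
    rw [natDegree_C_mul hc, ← hX1', natDegree_X_sub_C]
  have e3 : ∀ c : F, c ≠ 0 → (C c * P : F[X]).natDegree = P.natDegree := fun c hc =>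
    natDegree_C_mul hc
  have e4 : ∀ c : F, c ≠ 0 → (C c * (X * P) : F[X]).natDegree = 1 + P.natDegree := fun c hc => by
    rw [natDegree_C_mul hc, natDegree_mul X_ne_zero hPn0, natDegree_X]
  have e5 : ∀ c : F, c ≠ 0 → (C c * ((X - 1) * P) : F[X]).natDegree = 1 + P.natDegree :=
    fun c hc => by
      rw [natDegree_C_mul hc, natDegree_mul hmX1.ne_zero hPn0, ← hX1', natDegree_X_sub_C]
  have l1 : ∀ c : F, (C c * X : F[X]).leadingCoeff = c := fun c => by
    rw [leadingCoeff_mul, leadingCoeff_C, leadingCoeff_X, mul_one]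
  have l2 : ∀ c : F, (C c * (X - 1) : F[X]).leadingCoeff = c := fun c => by
    rw [leadingCoeff_mul, leadingCoeff_C, hmX1.leadingCoeff, mul_one]
  have l3 : ∀ c : F, (C c * P : F[X]).leadingCoeff = c := fun c => by
    rw [leadingCoeff_mul, leadingCoeff_C, hm.leadingCoeff, mul_one]
  have l4 : ∀ c : F, (C c * (X * P) : F[X]).leadingCoeff = c := fun c => by
    rw [leadingCoeff_mul, leadingCoeff_C, (monic_X.mul hm).leadingCoeff, mul_one]
  have l5 : ∀ c : F, (C c * ((X - 1) * P) : F[X]).leadingCoeff = c := fun c => by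
    rw [leadingCoeff_mul, leadingCoeff_C, (hmX1.mul hm).leadingCoeff, mul_one]
  have sqr : ∀ {c : F}, c ≠ 0 → IsSquare c → ∃ e : F, e ≠ 0 ∧ c = e ^ 2 := by
    intro c hc ⟨e, he⟩
    exact ⟨e, by rintro rfl; rw [mul_zero] at he; exact hc he, by rw [he, sq]⟩
  have getd : ∀ {x y : F}, x ≠ 0 → y ≠ 0 → IsSquare (x * y) → ∃ d : F, d ≠ 0 ∧ x * d ^ 2 = y := by
    intro x y hx hy h
    obtain ⟨e, he, hxy⟩ := sqr (mul_ne_zero hx hy) h
    refine ⟨e / x, div_ne_zero he hx, ?_⟩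
    rw [div_pow, ← hxy]
    field_simp
  have hl0 : l * P.eval 0 ≠ 0 := mul_ne_zero hl hP0
  have hl1 : l * P.eval 1 ≠ 0 := mul_ne_zero hl hP1
  have hb0 : be * P.eval 0 ≠ 0 := mul_ne_zero hbe hP0
  have ha1 : al * P.eval 1 ≠ 0 := mul_ne_zero hal hP1
  have z1 := hq.neg hbe
  have z2 := hq.mul be (P.eval 0) hbe hP0
  have z3 := hq.neg2 hbe hP0
  have z4 := hq.neg3 hbe hl hP0
  have z5 := hq.negneg3 hbe hl hP0
  have z6 := hq.negfour hbe hP0 hl
  have z7 := hq.negnegfour hbe hP0 hl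
  have o1 := hq.mul al (P.eval 1) hal hP1
  have o2 := hq.mul3 hal hl hP1
  have o3 := hq.four hal hP1 hl
  have i1 := hq.mul al be hal hbe
  have i2 := hq.neg3' hal hbe hl
  have i3 := hq.neg2 hbe hl
  have i4 := hq.mul al l hal hl
  have i5 := hq.mul be l hbe hl
  have y2 := hq.neg3' hl hP0 hP1
  have z8 : -be = be * (-1) := by ring
  have z9 : -(be * l) = be * (-l) := by ring
  rw [hq0, hq0, hq0] at hyp
  have ee : ∀ c : F, eval 0 (C c * (X - 1) : F[X]) = -c := fun c => by simp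
  have ee' : ∀ c : F, eval 0 (C c * ((X - 1) * P) : F[X]) = -(c * eval 0 P) := fun c => by simp
  have ee1 : ∀ c : F, eval 1 (C c * X : F[X]) = c := fun c => by simp
  have ee1' : ∀ c : F, eval 1 (C c * (X * P) : F[X]) = c * eval 1 P := fun c => by simp
  have ep : ∀ c x : F, eval x (C c * P : F[X]) = c * eval x P := fun c x => by simp
  have pe : ∀ n : ℕ, Even n ↔ n % 2 = 0 := fun n => Nat.even_iff
  have po : ∀ n : ℕ, Odd n ↔ n % 2 = 1 := fun n => Nat.odd_iff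
  have nXa := nX al hal
  have nXPa := nXP al hal
  have nX1b := nX1 be hbe
  have nX1Pb := nX1P be hbe
  have dXa := dX al
  have dX1b := dX1 be
  have dXPa := dXP al
  have dX1Pb := dX1P be
  have e1a := e1 al hal
  have e2b := e2 be hbe
  have e3a := e3 al hal
  have e3b := e3 be hbe
  have e4a := e4 al hal
  have e5b := e5 be hbe
  have k1 : ∀ m : ℕ, (q (-be) % 2 = m) = ((q (-1) + q be) % 2 = m) := fun m => by rw [z1]
  have k3 : ∀ m : ℕ, (q (-(be * l)) % 2 = m) = ((q (-1) + q be + q l) % 2 = m) :=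
    fun m => by rw [i3]
  have k4 : ∀ m : ℕ, (q (al * l) % 2 = m) = ((q al + q l) % 2 = m) := fun m => by rw [i4]
  have k5 : ∀ m : ℕ, (q (be * l) % 2 = m) = ((q be + q l) % 2 = m) := fun m => by rw [i5]
  generalize P.natDegree = n at *
  rcases ha with rfl | rfl | rfl | rfl <;> rcases hb with rfl | rfl | rfl | rfl <;>
    simp only [eval_C, leadingCoeff_C, natDegree_C, ee, ee', ee1, ee1', ep, e1a, e2b, e3a,
      e3b, e4a, e5b, l1, l2, l3, l4, l5, pe, po, hq0, nXa, nXPa, nX1b, nX1Pb, dXa, dX1b, dXPa,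
      dX1Pb, not_true_eq_false, not_false_eq_true, true_and, false_and, or_false, false_or,
      z1, z2, z3, z4, z5, z6, z7, o1, o2, o3, i1, i2, i3, i4, i5, y2]
      at hzero hone hio hie hyp <;>
    clear z1 z2 z3 z4 z5 z6 z7 o1 o2 o3 i1 i2 i3 i4 i5 y2 e1a e2b e3a e3b e4a e5b
  · -- `(1, 1)`
    left
    have hA : IsSquare al := by rw [hq0]; omega
    have hB : IsSquare be := by rw [hq0]; omega
    obtain ⟨c, hc, hc'⟩ := sqr hal hA
    obtain ⟨d, hd, hd'⟩ := sqr hbe hB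
    exact ⟨c, d, hc, hd, by rw [hc'], by rw [hd']⟩
  · exfalso; omega
  · exfalso; omega
  · exfalso; omega
  · exfalso; omega
  · exfalso; omega
  · -- `(X, P)`
    right; left
    have hA : IsSquare (al * 1) := by rw [mul_one, hq0]; omega
    have hB : IsSquare (be * (-l)) := by rw [← z9, hq0, k3]; omega
    obtain ⟨c, hc, hc'⟩ := getd hal one_ne_zero hA
    obtain ⟨d, hd, hd'⟩ := getd hbe (neg_ne_zero.2 hl) hB
    refine ⟨c, d, hc, hd, ?_, ?_⟩
    · rw [mul_right_comm, ← C_mul, hc', C_1, one_mul]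
    · rw [mul_right_comm, ← C_mul, hd', C_neg]; ring
  · exfalso; omega
  · exfalso; omega
  · -- `(P, X - 1)`
    right; right; left
    have hA : IsSquare (al * l) := by rw [hq0, k4]; omega
    have hB : IsSquare (be * (-1)) := by rw [← z8, hq0, k1]; omega
    obtain ⟨c, hc, hc'⟩ := getd hal hl hA
    obtain ⟨d, hd, hd'⟩ := getd hbe (neg_ne_zero.2 one_ne_zero) hB
    refine ⟨c, d, hc, hd, ?_, ?_⟩
    · rw [mul_right_comm, ← C_mul, hc']
    · rw [mul_right_comm, ← C_mul, hd', C_neg, C_1]; ring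
  · exfalso; omega
  · exfalso; omega
  · exfalso; omega
  · exfalso; omega
  · exfalso; omega
  · -- `(X P, (X - 1) P)`
    right; right; right
    have hA : IsSquare (al * l) := by rw [hq0, k4]; omega
    have hB : IsSquare (be * l) := by rw [hq0, k5]; omega
    obtain ⟨c, hc, hc'⟩ := getd hal hl hA
    obtain ⟨d, hd, hd'⟩ := getd hbe hl hB
    refine ⟨c, d, hc, hd, ?_, ?_⟩
    · rw [mul_right_comm, ← C_mul, hc']; ring
    · rw [mul_right_comm, ← C_mul, hd']; ring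

end

end Pool.Agent.H94.LT
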