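import Pool.Agent.H94.LT.Fin
import Pool.Agent.H94.LT.Inf

/-!
Reduction of the local conditions to conditions on polynomials.
-/

namespace Pool.Agent.H94.LT

open Polynomial WithZero IsDedekindDomain

section

variable {F : Type*} [Field F]

theorem isSquare_mul_iff [Finite F] (h2 : (2 : F) ≠ 0) {x y : F} (hx : x ≠ 0) (hy : y ≠ 0) :
    IsSquare (x * y) ↔ (IsSquare x ↔ IsSquare y) := by
  classical
  have : Fintype F := Fintype.ofFinite F
  have hF : ringChar F ≠ 2 := by
    intro h
    apply h2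
    have := ringChar.Nat.cast_ringChar (R := F)
    rw [h] at this
    exact_mod_cast this
  rw [← quadraticChar_one_iff_isSquare (mul_ne_zero hx hy), ← quadraticChar_one_iff_isSquare hx,
    ← quadraticChar_one_iff_isSquare hy, map_mul]
  rcases quadraticChar_dichotomy hx with h1 | h1 <;> rcases quadraticChar_dichotomy hy with h3 | h3
    <;> rw [h1, h3] <;> decide

/-- the covering over a field extension of `F(t)` -/
def HasPt (M : Type*) [Field M] [Algebra (RatFunc F) M] (D a b : RatFunc F) : Prop :=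
  Sol (algebraMap (RatFunc F) M RatFunc.X) (algebraMap (RatFunc F) M D)
    (algebraMap (RatFunc F) M a) (algebraMap (RatFunc F) M b)

theorem Cl.congr {M : Type*} [Field M] {v : Valuation M ℤᵐ⁰} {x y s : M} (hs : s ≠ 0)
    (h : x = y * s ^ 2) : Cl v x ↔ Cl v y := by
  constructor
  · intro h1; rw [h] at h1; exact Cl.of_mul_sq hs h1
  · intro h1; rw [h]; exact h1.mul (Cl.sq hs)

theorem Ev.congr {M : Type*} [Field M] {v : Valuation M ℤᵐ⁰} {x y s : M} (hs : s ≠ 0)
    (h : x = y * s ^ 2) : Ev v x ↔ Ev v y := by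
  constructor
  · intro h1; rw [h] at h1; exact Ev.of_mul_sq hs h1
  · intro h1; rw [h]; exact h1.mul (Ev.sq hs)

/-- The finite place `v = (t - c)`: reading off a square class of a polynomial. -/
theorem isSquare_eval_of_Cl (c : F) (g : F[X]) (hg : g.eval c ≠ 0)
    (v : HeightOneSpectrum F[X]) (hv : v.asIdeal = Ideal.span {X - C c})
    (h : Cl (Valued.v : Valuation (v.adicCompletion (RatFunc F)) ℤᵐ⁰)
      (algebraMap (RatFunc F) (v.adicCompletion (RatFunc F)) (algebraMap F[X] (RatFunc F) g))) :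
    IsSquare (g.eval c) := by
  have hgv : g ∉ v.asIdeal := by
    rw [hv, Ideal.mem_span_singleton, dvd_iff_isRoot]
    exact hg
  obtain ⟨y, hy⟩ := exists_of_Cl (K := RatFunc F) v (X - C c) (X_sub_C_ne_zero c) hv g hgv h
  rw [hv, Ideal.mem_span_singleton, dvd_iff_isRoot, IsRoot.def] at hy
  simp only [eval_sub, eval_mul, eval_pow, eval_one] at hy
  have hy0 : y.eval c ≠ 0 := by
    intro h0
    rw [h0] at hy
    simp at hy
  refine ⟨(y.eval c)⁻¹, ?_⟩
  field_simp
  linear_combination hy

/-- reading off the parity of a polynomial at a prime `p` -/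
theorem ev_iff_not_dvd (v : HeightOneSpectrum F[X]) (p : F[X]) (hp : p ≠ 0)
    (hv : v.asIdeal = Ideal.span {p}) (g : F[X]) (hg : Squarefree g) :
    Ev (Valued.v : Valuation (v.adicCompletion (RatFunc F)) ℤᵐ⁰)
      (algebraMap (RatFunc F) (v.adicCompletion (RatFunc F)) (algebraMap F[X] (RatFunc F) g)) ↔
      ¬ p ∣ g := by
  constructor
  · intro h hd
    obtain ⟨k, rfl⟩ := hd
    have hpk : ¬ p ∣ k := by
      intro hd
      obtain ⟨l, rfl⟩ := hd
      have hu := hg p ⟨l, by ring⟩
      apply v.isPrime.ne_top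
      rw [hv, Ideal.span_singleton_eq_top]; exact hu
    have h3 : (Valued.v (algebraMap (RatFunc F) (v.adicCompletion (RatFunc F))
        (algebraMap F[X] (RatFunc F) (p * k))) : ℤᵐ⁰) = exp (-1 : ℤ) := by
      rw [val_A, map_mul, v.intValuation_singleton hp hv]
      have h4 : v.intValuation k = 1 := by
        rw [← val_A (K := RatFunc F), val_A_eq_one_iff, hv, Ideal.mem_span_singleton]
        exact hpk
      rw [h4, mul_one]
    have h5 := h.even h3
    revert h5; decide
  · intro h
    apply Ev.of_val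
    rw [val_A_eq_one_iff, hv, Ideal.mem_span_singleton]
    exact h

/-- the place at infinity: reading off parity and leading coefficient -/
theorem inf_of_Cl [DecidableEq (RatFunc F)] {p : F[X]} (hp : p ≠ 0)
    (h : Cl (Valued.v : Valuation (RatFunc.CompletionAtInfty F) ℤᵐ⁰)
      (algebraMap (RatFunc F) (RatFunc.CompletionAtInfty F)
        (algebraMap F[X] (RatFunc F) p))) : Even p.natDegree ∧ IsSquare p.leadingCoeff := by
  have h1 : Even p.natDegree := by
    have := h.ev.even (val_inf_poly hp)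
    exact_mod_cast this
  exact ⟨h1, Cl_lead hp h1 h⟩

theorem inf_ev [DecidableEq (RatFunc F)] {p : F[X]} (hp : p ≠ 0)
    (h : Ev (Valued.v : Valuation (RatFunc.CompletionAtInfty F) ℤᵐ⁰)
      (algebraMap (RatFunc F) (RatFunc.CompletionAtInfty F)
        (algebraMap F[X] (RatFunc F) p))) : Even p.natDegree := by
  have := h.even (val_inf_poly hp)
  exact_mod_cast this

/-- The polynomial data of a class which is soluble at all places. -/
structure Data (D ga gb : F[X]) : Prop where
  sqa : Squarefree ga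
  sqb : Squarefree gb
  dvda : ga ∣ X * D
  dvdb : gb ∣ (X - 1) * D
  zero : (¬ X ∣ ga ∧ IsSquare (gb.eval 0)) ∨ (X ∣ ga ∧ IsSquare (-(gb.eval 0 * D.eval 0)))
  one : (¬ (X - 1) ∣ gb ∧ IsSquare (ga.eval 1)) ∨ ((X - 1) ∣ gb ∧ IsSquare (ga.eval 1 * D.eval 1))
  infOdd : Odd D.natDegree →
    (Even ga.natDegree ∧ Even gb.natDegree ∧ IsSquare (ga.leadingCoeff * gb.leadingCoeff)) ∨
    (Odd ga.natDegree ∧ Odd gb.natDegree ∧
      IsSquare (-(ga.leadingCoeff * gb.leadingCoeff * D.leadingCoeff)))
  infEven : Even D.natDegree →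
    (Even ga.natDegree ∧ Even gb.natDegree ∧ IsSquare ga.leadingCoeff ∧ IsSquare gb.leadingCoeff) ∨
    (Odd ga.natDegree ∧ Even gb.natDegree ∧ IsSquare ga.leadingCoeff ∧
      IsSquare (-(gb.leadingCoeff * D.leadingCoeff))) ∨
    (Even ga.natDegree ∧ Odd gb.natDegree ∧ IsSquare (ga.leadingCoeff * D.leadingCoeff) ∧
      IsSquare (-gb.leadingCoeff)) ∨
    (Odd ga.natDegree ∧ Odd gb.natDegree ∧ IsSquare (ga.leadingCoeff * D.leadingCoeff) ∧
      IsSquare (gb.leadingCoeff * D.leadingCoeff))

end

end Pool.Agent.H94.LT
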